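import Mathlib
import Pool.Agent.H713R5.QJ.Defs

/-! An attractor lemma: if an entire map `Φ` maps each of finitely many discs of radius `r` either
far away or into the concentric disc of radius `r / 8` of another of these discs, then all points of
the discs escape or are attracted by sinks. -/

set_option autoImplicit false

open Topology Filter Metric Set

namespace Pool.Agent.H400R3.HI

open Pool.Agent.H713R5.QJ

theorem pow_le_iter {Φ : ℂ → ℂ} {R : ℝ} (hR : 0 < R) (h : ∀ w, R ≤ ‖w‖ → 2 * ‖w‖ ≤ ‖Φ w‖)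
    {w : ℂ} (hw : R ≤ ‖w‖) (k : ℕ) : 2 ^ k * ‖w‖ ≤ ‖Φ^[k] w‖ := by
  induction k with
  | zero => simp
  | succ k ih =>
    rw [Function.iterate_succ_apply']
    have h1 : R ≤ ‖Φ^[k] w‖ := by
      refine hw.trans (le_trans ?_ ih)
      have : (1 : ℝ) ≤ 2 ^ k := one_le_pow₀ (by norm_num)
      nlinarith [norm_nonneg w]
    have h2 := h _ h1
    calc 2 ^ (k + 1) * ‖w‖ = 2 * (2 ^ k * ‖w‖) := by ring
      _ ≤ 2 * ‖Φ^[k] w‖ := by linarith
      _ ≤ _ := h2

theorem esc_of_large {Φ : ℂ → ℂ} {R : ℝ} (hR : 0 < R) (h : ∀ w, R ≤ ‖w‖ → 2 * ‖w‖ ≤ ‖Φ w‖)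
    {w : ℂ} (hw : R ≤ ‖w‖) : Tendsto (fun k : ℕ => ‖Φ^[k] w‖) atTop atTop := by
  have h1 : Tendsto (fun k : ℕ => (2 : ℝ) ^ k * ‖w‖) atTop atTop :=
    (tendsto_pow_atTop_atTop_of_one_lt (by norm_num)).atTop_mul_const (hR.trans_le hw)
  exact tendsto_atTop_mono (pow_le_iter hR h hw) h1

theorem good_of_iter_esc {Φ : ℂ → ℂ} {w : ℂ} {m : ℕ}
    (h : Tendsto (fun k : ℕ => ‖Φ^[k] (Φ^[m] w)‖) atTop atTop) :
    Tendsto (fun k : ℕ => ‖Φ^[k] w‖) atTop atTop := by
  rw [← tendsto_add_atTop_iff_nat m]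
  refine h.congr fun k => ?_
  rw [← Function.iterate_add_apply]

theorem schwarz {H : ℂ → ℂ} (hH : Differentiable ℂ H) {b : ℂ} {r : ℝ} (hr : 0 < r)
    (hm : MapsTo H (ball b r) (ball b (r / 8))) {u v : ℂ} (hu : u ∈ closedBall b (r / 8))
    (hv : v ∈ closedBall b (r / 8)) : dist (H u) (H v) ≤ 2 / 7 * dist u v := by
  rw [mem_closedBall] at hu hv
  have h1 : MapsTo H (ball v (7 * r / 8)) (ball (H v) (r / 4)) := by
    intro z hz
    rw [mem_ball] at hz ⊢
    have hz' : z ∈ ball b r := by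
      rw [mem_ball]
      calc dist z b ≤ dist z v + dist v b := dist_triangle _ _ _
        _ < 7 * r / 8 + r / 8 := by linarith
        _ = r := by ring
    have hv' : v ∈ ball b r := by rw [mem_ball]; linarith
    have e1 := hm hz'
    have e2 := hm hv'
    rw [mem_ball] at e1 e2
    calc dist (H z) (H v) ≤ dist (H z) b + dist b (H v) := dist_triangle _ _ _
      _ < r / 8 + r / 8 := by rw [dist_comm b]; linarith
      _ = r / 4 := by ring
  have h2 : u ∈ ball v (7 * r / 8) := by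
    rw [mem_ball]
    calc dist u v ≤ dist u b + dist b v := dist_triangle _ _ _
      _ ≤ r / 8 + r / 8 := by rw [dist_comm b]; linarith
      _ < 7 * r / 8 := by linarith
  have h3 := Complex.dist_le_div_mul_dist_of_mapsTo_ball hH.differentiableOn
    (h1.mono_right ball_subset_closedBall) h2
  have h4 : r / 4 / (7 * r / 8) = 2 / 7 := by field_simp; norm_num
  rwa [h4] at h3

theorem attractor {Φ : ℂ → ℂ} (hΦ : Differentiable ℂ Φ) {B : Set ℂ} (hB : B.Finite) {r R : ℝ}
    (hr : 0 < r) (hR : 0 < R) (hL : ∀ w, R ≤ ‖w‖ → 2 * ‖w‖ ≤ ‖Φ w‖)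
    (hmap : ∀ b ∈ B, (∀ w ∈ ball b r, R ≤ ‖Φ w‖) ∨
      ∃ b' ∈ B, MapsTo Φ (ball b r) (ball b' (r / 8)))
    {b₀ : ℂ} (hb₀ : b₀ ∈ B) {w : ℂ} (hw : w ∈ ball b₀ r) : Good Φ w := by
  classical
  by_cases hesc : ∃ m : ℕ, R ≤ ‖Φ^[m] w‖
  · obtain ⟨m, hm⟩ := hesc
    exact Or.inl (good_of_iter_esc (esc_of_large hR hL hm))
  push Not at hesc
  -- the itinerary
  have hσ : ∀ b : ℂ, ∃ b' : ℂ, b ∈ B → (∃ b'' ∈ B, MapsTo Φ (ball b r) (ball b'' (r / 8))) →
      b' ∈ B ∧ MapsTo Φ (ball b r) (ball b' (r / 8)) := by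
    intro b
    by_cases h : ∃ b'' ∈ B, MapsTo Φ (ball b r) (ball b'' (r / 8))
    · obtain ⟨b'', h1, h2⟩ := h
      exact ⟨b'', fun _ _ => ⟨h1, h2⟩⟩
    · exact ⟨0, fun _ h' => absurd h' h⟩
  choose σ hσ using hσ
  have hit : ∀ k : ℕ, σ^[k] b₀ ∈ B ∧ Φ^[k] w ∈ ball (σ^[k] b₀) r ∧
      MapsTo Φ (ball (σ^[k] b₀) r) (ball (σ^[k + 1] b₀) (r / 8)) ∧ σ^[k + 1] b₀ ∈ B := by
    intro k
    induction k with
    | zero =>
      have h2 : ∃ b' ∈ B, MapsTo Φ (ball b₀ r) (ball b' (r / 8)) := by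
        rcases hmap b₀ hb₀ with h | h
        · exact absurd (h w hw) (not_le.mpr (hesc 1))
        · exact h
      have h3 := hσ b₀ hb₀ h2
      exact ⟨hb₀, hw, h3.2, h3.1⟩
    | succ k ih =>
      obtain ⟨h1, h2, h3, h4⟩ := ih
      have h5 : Φ^[k + 1] w ∈ ball (σ^[k + 1] b₀) r := by
        rw [Function.iterate_succ_apply' Φ]
        exact ball_subset_ball (by linarith) (h3 h2)
      have h6 : ∃ b' ∈ B, MapsTo Φ (ball (σ^[k + 1] b₀) r) (ball b' (r / 8)) := by
        rcases hmap _ h4 with h | h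
        · have := h _ h5
          rw [← Function.iterate_succ_apply' Φ] at this
          exact absurd this (not_le.mpr (hesc (k + 1 + 1)))
        · exact h
      have h7 := hσ _ h4 h6
      rw [← Function.iterate_succ_apply' σ] at h7
      exact ⟨h4, h5, h7.2, h7.1⟩
  -- a repetition
  obtain ⟨i, q, hq, hrep⟩ : ∃ i q : ℕ, 0 < q ∧ σ^[i + q] b₀ = σ^[i] b₀ := by
    obtain ⟨i, -, j, -, hij, h⟩ := Set.infinite_univ.exists_lt_map_eq_of_mapsTo
      (f := fun k : ℕ => σ^[k] b₀) (t := B) (fun k _ => (hit k).1) hB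
    exact ⟨i, j - i, by omega, by rw [show i + (j - i) = j by omega]; exact h.symm⟩
  obtain ⟨i', hrep'⟩ : ∃ i' : ℕ, σ^[q * i' + q] b₀ = σ^[q * i'] b₀ := by
    refine ⟨i, ?_⟩
    have h1 : i ≤ q * i := Nat.le_mul_of_pos_left i hq
    have h2 : σ^[q * i + q] b₀ = σ^[q * i - i] (σ^[i + q] b₀) := by
      rw [← Function.iterate_add_apply, show q * i - i + (i + q) = q * i + q by omega]
    have h3 : σ^[q * i] b₀ = σ^[q * i - i] (σ^[i] b₀) := by
      rw [← Function.iterate_add_apply, show q * i - i + i = q * i by omega]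
    rw [h2, h3, hrep]
  set b : ℂ := σ^[q * i'] b₀ with hb
  have hiter : ∀ j : ℕ, MapsTo Φ^[j + 1] (ball b r) (ball (σ^[q * i' + (j + 1)] b₀) (r / 8)) := by
    intro j
    induction j with
    | zero =>
      intro z hz
      rw [zero_add, Function.iterate_one]
      exact (hit (q * i')).2.2.1 hz
    | succ j ih =>
      intro z hz
      rw [Function.iterate_succ_apply']
      have h1 := ih hz
      exact (hit (q * i' + (j + 1))).2.2.1 (ball_subset_ball (by linarith) h1)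
  have hH : MapsTo Φ^[q] (ball b r) (ball b (r / 8)) := by
    have h1 := hiter (q - 1)
    rw [show q - 1 + 1 = q by omega, hrep'] at h1
    exact h1
  have hdiff : Differentiable ℂ Φ^[q] := hΦ.iterate q
  have hu0 : Φ^[q * (i' + 1)] w ∈ closedBall b (r / 8) := by
    rw [show q * (i' + 1) = q + q * i' by ring, Function.iterate_add_apply]
    exact ball_subset_closedBall (hH (hit (q * i')).2.1)
  have hsub : closedBall b (r / 8) ⊆ ball b r := closedBall_subset_ball (by linarith)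
  have hmaps : MapsTo Φ^[q] (closedBall b (r / 8)) (closedBall b (r / 8)) := fun z hz =>
    ball_subset_closedBall (hH (hsub hz))
  have hcontr : ContractingWith (Real.toNNReal (2 / 7))
      (hmaps.restrict Φ^[q] (closedBall b (r / 8)) (closedBall b (r / 8))) := by
    refine ⟨?_, LipschitzWith.of_dist_le_mul fun u v => ?_⟩
    · rw [← NNReal.coe_lt_coe, Real.coe_toNNReal _ (by norm_num)]
      norm_num
    · rw [Real.coe_toNNReal _ (by norm_num)]
      exact schwarz hdiff hr hH u.2 v.2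
  obtain ⟨y, hy, hfix, hlim, -⟩ := hcontr.exists_fixedPoint' isClosed_closedBall.isComplete hmaps hu0
    (edist_ne_top _ _)
  have hy' : y ∈ ball b (r / 8) := by
    have := hH (hsub hy)
    rwa [hfix.eq] at this
  refine Or.inr ⟨q, hq, y, hfix, ?_, ?_⟩
  · have h1 : ‖deriv Φ^[q] y‖ ≤ 2 / 7 := by
      refine norm_deriv_le_of_lip' (by norm_num) ?_
      filter_upwards [isOpen_ball.mem_nhds hy'] with z hz
      have := schwarz hdiff hr hH (ball_subset_closedBall hz) hy
      rwa [dist_eq_norm, dist_eq_norm] at this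
    exact h1.trans_lt (by norm_num)
  · rw [← tendsto_add_atTop_iff_nat (i' + 1)]
    refine hlim.congr fun k => ?_
    rw [← Function.iterate_mul, ← Function.iterate_add_apply]
    congr 1
    ring

end Pool.Agent.H400R3.HI
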