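import Mathlib
import Pool.Agent.H713R5.QJ.TFATP
import Pool.Agent.H713R5.QJ.TKO0
import Pool.Agent.H400R3.HI.Attr

/-! The maps `φ ∘ G^n` for large `n`. -/

set_option autoImplicit false

open Topology Filter Metric Set

namespace Pool.Agent.H400R3.HI

open Pool.Agent.H713R5.QJ

theorem good_of_map {Φ : ℂ → ℂ} (hΦ : Differentiable ℂ Φ) {w : ℂ} (h : Good Φ (Φ w)) :
    Good Φ w := by
  rcases h with h | ⟨P, hP, h⟩
  · exact Or.inl (good_of_iter_esc (m := 1) h)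
  · exact Or.inr ⟨P, hP, ((ko0_holds Φ P hΦ hP).2.2.1 w).mp h⟩

/-- `z` escapes under `G` or is attracted by a point of `A` -/
def Gd (G : ℂ → ℂ) (A : Set ℂ) (P : ℕ) (z : ℂ) : Prop :=
  Tendsto (fun k : ℕ => ‖G^[k] z‖) atTop atTop ∨
    ∃ a ∈ A, Tendsto (fun k : ℕ => G^[P * k] z) atTop (𝓝 a)

theorem unif_esc {G : ℂ → ℂ} (hG : Differentiable ℂ G) {R : ℝ} (hR : 0 < R)
    (hGR : ∀ w, R ≤ ‖w‖ → 2 * ‖w‖ ≤ ‖G w‖) {z : ℂ}
    (hz : Tendsto (fun k : ℕ => ‖G^[k] z‖) atTop atTop) :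
    ∃ ρ > 0, ∀ S : ℝ, ∀ᶠ n : ℕ in atTop, ∀ w ∈ ball z ρ, S < ‖G^[n] w‖ := by
  obtain ⟨K, hK⟩ := (hz.eventually_gt_atTop R).exists
  have hcont : Continuous fun w => ‖G^[K] w‖ := (hG.iterate K).continuous.norm
  obtain ⟨ρ, hρ, hball⟩ := Metric.mem_nhds_iff.mp (hcont.continuousAt.preimage_mem_nhds
    (Ioi_mem_nhds hK))
  refine ⟨ρ, hρ, fun S => ?_⟩
  obtain ⟨J, hJ⟩ := pow_unbounded_of_one_lt (S / R) (by norm_num : (1 : ℝ) < 2)
  filter_upwards [eventually_ge_atTop (J + K)] with n hn w hw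
  obtain ⟨j, rfl⟩ : ∃ j, n = j + K := ⟨n - K, by omega⟩
  have h1 : R < ‖G^[K] w‖ := hball hw
  rw [Function.iterate_add_apply]
  have h2 := pow_le_iter hR hGR h1.le j
  have h3 : (2 : ℝ) ^ J ≤ 2 ^ j := pow_le_pow_right₀ (by norm_num) (by omega)
  rw [div_lt_iff₀ hR] at hJ
  calc S < 2 ^ J * R := hJ
    _ ≤ 2 ^ j * ‖G^[K] w‖ := mul_le_mul h3 h1.le hR.le (by positivity)
    _ ≤ _ := h2

theorem unif_att {G : ℂ → ℂ} (hG : Differentiable ℂ G) {P : ℕ} (hP : 0 < P) {a : ℂ}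
    (ha : G^[P] a = a) (hd : ‖deriv G^[P] a‖ < 1) {z : ℂ}
    (hz : Tendsto (fun k : ℕ => G^[P * k] z) atTop (𝓝 a)) :
    ∃ ρ > 0, ∀ s : ℝ, 0 < s → ∀ᶠ n : ℕ in atTop, ∀ w ∈ ball z ρ, dist (G^[n] w) (G^[n] a) < s := by
  obtain ⟨lam, hlam1, hlam2⟩ := exists_between hd
  have hlam0 : 0 ≤ lam := (norm_nonneg _).trans hlam1.le
  -- contraction near `a`
  obtain ⟨r0, hr0, hr⟩ : ∃ r0 > 0, ∀ w ∈ ball a r0, dist (G^[P] w) a ≤ lam * dist w a := by
    have h1 := hasDerivAt_iff_isLittleO.mp ((hG.iterate P) a).hasDerivAt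
    have h2 := h1.def (sub_pos.mpr hlam1)
    obtain ⟨r0, hr0, h3⟩ := Metric.mem_nhds_iff.mp h2
    refine ⟨r0, hr0, fun w hw => ?_⟩
    have h4 := h3 hw
    simp only [Set.mem_ofPred_eq, ha, smul_eq_mul] at h4
    rw [dist_eq_norm, dist_eq_norm]
    calc ‖G^[P] w - a‖ = ‖(G^[P] w - a - (w - a) * deriv G^[P] a) + (w - a) * deriv G^[P] a‖ := by
          congr 1; ring
      _ ≤ ‖G^[P] w - a - (w - a) * deriv G^[P] a‖ + ‖(w - a) * deriv G^[P] a‖ := norm_add_le _ _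
      _ ≤ (lam - ‖deriv G^[P] a‖) * ‖w - a‖ + ‖w - a‖ * ‖deriv G^[P] a‖ :=
          add_le_add h4 (norm_mul_le _ _)
      _ = lam * ‖w - a‖ := by ring
  have hpow : ∀ k : ℕ, ∀ w ∈ ball a r0, G^[P * k] w ∈ ball a r0 ∧
      dist (G^[P * k] w) a ≤ lam ^ k * dist w a := by
    intro k
    induction k with
    | zero => intro w hw; simpa using hw
    | succ k ih =>
      intro w hw
      obtain ⟨h1, h2⟩ := ih w hw
      have h3 : G^[P * (k + 1)] w = G^[P] (G^[P * k] w) := by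
        rw [← Function.iterate_add_apply]; congr 1; ring
      have h4 := hr _ h1
      rw [h3]
      refine ⟨?_, ?_⟩
      · rw [mem_ball] at h1 ⊢
        calc dist (G^[P] (G^[P * k] w)) a ≤ lam * dist (G^[P * k] w) a := h4
          _ ≤ 1 * dist (G^[P * k] w) a := mul_le_mul_of_nonneg_right hlam2.le dist_nonneg
          _ < r0 := by rw [one_mul]; exact h1
      · calc dist (G^[P] (G^[P * k] w)) a ≤ lam * dist (G^[P * k] w) a := h4
          _ ≤ lam * (lam ^ k * dist w a) := mul_le_mul_of_nonneg_left h2 hlam0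
          _ = lam ^ (k + 1) * dist w a := by ring
  have hfix : ∀ q : ℕ, G^[P * q] a = a := by
    intro q
    rw [Function.iterate_mul]
    exact Function.iterate_fixed ha q
  obtain ⟨K, hK⟩ := (hz.eventually (isOpen_ball.mem_nhds (mem_ball_self hr0))).exists
  obtain ⟨ρ, hρ, hball⟩ := Metric.mem_nhds_iff.mp
    ((hG.iterate (P * K)).continuous.continuousAt.preimage_mem_nhds (isOpen_ball.mem_nhds hK))
  refine ⟨ρ, hρ, fun s hs => ?_⟩
  -- continuity of the first iterates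
  have hcont : ∀ᶠ w in 𝓝 a, ∀ j ∈ Finset.range P, dist (G^[j] w) (G^[j] a) < s := by
    rw [Filter.eventually_all_finset]
    intro j _
    exact (hG.iterate j).continuous.continuousAt.eventually (Metric.ball_mem_nhds _ hs)
  obtain ⟨δ, hδ, hδ'⟩ := Metric.mem_nhds_iff.mp hcont
  have hlim : Tendsto (fun k : ℕ => lam ^ k * r0) atTop (𝓝 0) := by
    have := (tendsto_pow_atTop_nhds_zero_of_lt_one hlam0 hlam2).mul_const r0
    rwa [zero_mul] at this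
  obtain ⟨k1, hk1⟩ := Filter.eventually_atTop.mp (hlim.eventually (Iio_mem_nhds hδ))
  filter_upwards [eventually_ge_atTop (P * (K + k1))] with n hn w hw
  have hq1 : K + k1 ≤ n / P := (Nat.le_div_iff_mul_le hP).mpr (by rw [mul_comm]; exact hn)
  obtain ⟨t, ht⟩ : ∃ t, n / P = t + K := ⟨n / P - K, by omega⟩
  have ht1 : k1 ≤ t := by omega
  have hnn : n = n % P + P * t + P * K := by
    have := Nat.mod_add_div n P
    rw [ht] at this
    rw [mul_add] at this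
    omega
  have e1 : G^[n] w = G^[n % P] (G^[P * t] (G^[P * K] w)) := by
    rw [← Function.iterate_add_apply, ← Function.iterate_add_apply, ← hnn]
  have e2 : G^[n] a = G^[n % P] a := by
    conv_lhs => rw [← Nat.mod_add_div n P]
    rw [Function.iterate_add_apply, hfix]
  rw [e1, e2]
  have h5 : G^[P * K] w ∈ ball a r0 := hball hw
  have h6 : G^[P * t] (G^[P * K] w) ∈ ball a δ := by
    rw [mem_ball]
    calc _ ≤ lam ^ t * dist (G^[P * K] w) a := (hpow t _ h5).2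
      _ ≤ lam ^ t * r0 := by
        have := mem_ball.mp h5
        exact mul_le_mul_of_nonneg_left this.le (by positivity)
      _ < δ := hk1 t ht1
  exact hδ' h6 (n % P) (Finset.mem_range.mpr (Nat.mod_lt _ hP))

section
variable {G φ : ℂ → ℂ} (hG : Differentiable ℂ G) (hφ : Differentiable ℂ φ) {R c : ℝ} (hR : 0 < R)
  (hc : 0 < c) (hGR : ∀ w, R ≤ ‖w‖ → 2 * ‖w‖ ≤ ‖G w‖) (hφR : ∀ w, R ≤ ‖w‖ → c * ‖w‖ ≤ ‖φ w‖)
  {A : Set ℂ} (hA : A.Finite) {P : ℕ} (hP : 0 < P) (hAG : ∀ a ∈ A, G a ∈ A)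
  (hAP : ∀ a ∈ A, G^[P] a = a ∧ ‖deriv G^[P] a‖ < 1)

include hR hc hGR hφR in
theorem large_ev : ∀ᶠ n : ℕ in atTop, ∀ w, R ≤ ‖w‖ → 2 * ‖w‖ ≤ ‖(φ ∘ G^[n]) w‖ := by
  have h1 : Tendsto (fun n : ℕ => (2 : ℝ) ^ n) atTop atTop :=
    tendsto_pow_atTop_atTop_of_one_lt (by norm_num)
  filter_upwards [h1.eventually_ge_atTop (2 / c)] with n hn w hw
  have h2 := pow_le_iter hR hGR hw n
  have h3 : R ≤ ‖G^[n] w‖ := by
    refine hw.trans (le_trans ?_ h2)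
    have : (1 : ℝ) ≤ 2 ^ n := one_le_pow₀ (by norm_num)
    nlinarith [norm_nonneg w]
  have h4 := hφR _ h3
  rw [div_le_iff₀ hc] at hn
  calc 2 * ‖w‖ ≤ 2 ^ n * c * ‖w‖ := mul_le_mul_of_nonneg_right hn (norm_nonneg _)
    _ = c * (2 ^ n * ‖w‖) := by ring
    _ ≤ c * ‖G^[n] w‖ := mul_le_mul_of_nonneg_left h2 hc.le
    _ ≤ _ := h4

include hAG in
theorem iter_mem {a : ℂ} (ha : a ∈ A) (n : ℕ) : G^[n] a ∈ A := by
  induction n with
  | zero => exact ha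
  | succ n ih => rw [Function.iterate_succ_apply']; exact hAG _ ih

include hG hφ hR hc hGR hφR hA hP hAG hAP in
/-- near a good point, `φ ∘ G^n` is uniformly large or uniformly close to `φ '' A` -/
theorem local_ev {z : ℂ} (hz : Gd G A P z) : ∃ ρ > 0, ∀ s : ℝ, 0 < s → ∀ᶠ n : ℕ in atTop,
    (∀ w ∈ ball z ρ, R ≤ ‖(φ ∘ G^[n]) w‖) ∨
      ∃ b' ∈ φ '' A, MapsTo (φ ∘ G^[n]) (ball z ρ) (ball b' s) := by
  rcases hz with hz | ⟨a, ha, hz⟩
  · obtain ⟨ρ, hρ, h⟩ := unif_esc hG hR hGR hz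
    refine ⟨ρ, hρ, fun s _ => ?_⟩
    filter_upwards [h (max R (R / c))] with n hn
    left
    intro w hw
    have h1 := hn w hw
    have h2 := hφR _ ((le_max_left _ _).trans h1.le)
    have h3 : R / c ≤ ‖G^[n] w‖ := (le_max_right _ _).trans h1.le
    rw [div_le_iff₀ hc] at h3
    calc R ≤ c * ‖G^[n] w‖ := by linarith
      _ ≤ _ := h2
  · obtain ⟨ρ, hρ, h⟩ := unif_att hG hP (hAP a ha).1 (hAP a ha).2 hz
    refine ⟨ρ, hρ, fun s hs => ?_⟩
    have h1 : ∀ a' ∈ A, ∀ᶠ δ : ℝ in 𝓝[>] 0, ∀ w ∈ ball a' δ, dist (φ w) (φ a') < s := by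
      intro a' _
      obtain ⟨δ, hδ, hδ'⟩ := Metric.continuousAt_iff.mp (hφ.continuous.continuousAt (x := a')) s hs
      filter_upwards [Ioo_mem_nhdsGT hδ] with δ' hδ'' w hw
      exact hδ' (lt_trans hw hδ''.2)
    obtain ⟨δ, hδ1, hδ⟩ := (((Filter.eventually_all_finite hA).mpr h1).and
      self_mem_nhdsWithin).exists
    filter_upwards [h δ hδ] with n hn
    right
    refine ⟨φ (G^[n] a), mem_image_of_mem φ (iter_mem hAG ha n), fun w hw => ?_⟩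
    exact hδ1 _ (iter_mem hAG ha n) _ (hn w hw)

include hG hφ hR hc hGR hφR hA hP hAG hAP in
theorem discs_ev (hgood : ∀ a ∈ A, Gd G A P (φ a)) :
    ∃ r > 0, ∀ᶠ n : ℕ in atTop, ∀ b ∈ φ '' A, ∀ w ∈ ball b r, Good (φ ∘ G^[n]) w := by
  have hB : (φ '' A).Finite := hA.image φ
  -- a common radius
  have h1 : ∀ b ∈ φ '' A, ∀ᶠ ρ : ℝ in 𝓝[>] 0, ∀ s : ℝ, 0 < s → ∀ᶠ n : ℕ in atTop,
      (∀ w ∈ ball b ρ, R ≤ ‖(φ ∘ G^[n]) w‖) ∨
        ∃ b' ∈ φ '' A, MapsTo (φ ∘ G^[n]) (ball b ρ) (ball b' s) := by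
    rintro _ ⟨a, ha, rfl⟩
    obtain ⟨ρ, hρ, h⟩ := local_ev hG hφ hR hc hGR hφR hA hP hAG hAP (hgood a ha)
    filter_upwards [Ioo_mem_nhdsGT hρ] with ρ' hρ' s hs
    filter_upwards [h s hs] with n hn
    rcases hn with h2 | ⟨b', hb', h2⟩
    · exact Or.inl fun w hw => h2 w (ball_subset_ball hρ'.2.le hw)
    · exact Or.inr ⟨b', hb', fun w hw => h2 (ball_subset_ball hρ'.2.le hw)⟩
  obtain ⟨r, hr1, hr⟩ := (((Filter.eventually_all_finite hB).mpr h1).and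
    self_mem_nhdsWithin).exists
  have hr0 : 0 < r := hr
  refine ⟨r, hr0, ?_⟩
  have h2 : ∀ᶠ n : ℕ in atTop, ∀ b ∈ φ '' A, (∀ w ∈ ball b r, R ≤ ‖(φ ∘ G^[n]) w‖) ∨
      ∃ b' ∈ φ '' A, MapsTo (φ ∘ G^[n]) (ball b r) (ball b' (r / 8)) :=
    (Filter.eventually_all_finite hB).mpr fun b hb => hr1 b hb (r / 8) (by positivity)
  filter_upwards [h2, large_ev hR hc hGR hφR] with n hn hL b hb w hw
  exact attractor (hφ.comp (hG.iterate n)) hB hr0 hR hL hn hb hw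

include hG hφ hR hc hGR hφR hA hP hAG hAP in
theorem mark_ev (hgood : ∀ a ∈ A, Gd G A P (φ a)) {m : ℂ} (hm : Gd G A P m) :
    ∀ᶠ n : ℕ in atTop, Good (φ ∘ G^[n]) m := by
  obtain ⟨r, hr, h1⟩ := discs_ev hG hφ hR hc hGR hφR hA hP hAG hAP hgood
  obtain ⟨ρ, hρ, h2⟩ := local_ev hG hφ hR hc hGR hφR hA hP hAG hAP hm
  filter_upwards [h1, h2 r hr, large_ev hR hc hGR hφR] with n hn1 hn2 hL
  apply good_of_map (hφ.comp (hG.iterate n))
  rcases hn2 with h | ⟨b', hb', h⟩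
  · exact Or.inl (esc_of_large hR hL (h m (mem_ball_self hρ)))
  · exact hn1 b' hb' _ (h (mem_ball_self hρ))

include hG hφ hR hc hGR hφR hA hP hAG hAP in
theorem orbit_ev (hgood : ∀ a ∈ A, Gd G A P (φ a)) {z : ℂ} (hz : Gd G A P z)
    (hz' : ∀ k : ℕ, 1 ≤ k → Gd G A P (φ (G^[k] z))) :
    ∀ᶠ n : ℕ in atTop, ∀ k : ℕ, 1 ≤ k → Good (φ ∘ G^[n]) (φ (G^[k] z)) := by
  obtain ⟨r, hr, h1⟩ := discs_ev hG hφ hR hc hGR hφR hA hP hAG hAP hgood
  obtain ⟨ρ, hρ, h2⟩ := local_ev hG hφ hR hc hGR hφR hA hP hAG hAP hz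
  obtain ⟨k0, hk0⟩ := Filter.eventually_atTop.mp (h2 r hr)
  have h3 : ∀ᶠ n : ℕ in atTop, ∀ k ∈ Finset.range k0, 1 ≤ k →
      Good (φ ∘ G^[n]) (φ (G^[k] z)) := by
    rw [Filter.eventually_all_finset]
    intro k _
    by_cases hk : 1 ≤ k
    · filter_upwards [mark_ev hG hφ hR hc hGR hφR hA hP hAG hAP hgood (hz' k hk)] with n hn _
      exact hn
    · exact Filter.Eventually.of_forall fun n h => absurd h hk
  filter_upwards [h1, h3, large_ev hR hc hGR hφR] with n hn1 hn3 hL k hk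
  by_cases hkk : k < k0
  · exact hn3 k (Finset.mem_range.mpr hkk) hk
  · rcases hk0 k (not_lt.mp hkk) with h | ⟨b', hb', h⟩
    · exact Or.inl (esc_of_large hR hL (h z (mem_ball_self hρ)))
    · exact hn1 b' hb' _ (h (mem_ball_self hρ))

end

end Pool.Agent.H400R3.HI
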