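import Mathlib
import Pool.Agent.H713R5.QJ.TFATP
import Pool.Agent.H713R5.QJ.TKO0
import Pool.Agent.H713R5.QJ.TKO1
import Pool.Agent.H713R5.QJ.TKO2
import Pool.Agent.H713R5.QJ.TKO3
import Pool.Agent.H713R5.QJ.TKBP
import Pool.Agent.H713R3.ZA.TSURJ
import Pool.Agent.H713R3.ZA.TROOT
import Pool.Agent.H400R3.HI.Core

/-! A polynomial has finitely many sinks (by Fatou's theorem, proved in the files imported). -/

set_option autoImplicit false

open Topology Filter Metric Set Polynomial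

namespace Pool.Agent.H400R3.HI

open Pool.Agent.H713R5.QJ Pool.Agent.H713R3.ZA

/-- the attracting periodic points -/
def sinks (G : ℂ → ℂ) : Set ℂ := {a | ∃ p : ℕ, 0 < p ∧ G^[p] a = a ∧ ‖deriv G^[p] a‖ < 1}

theorem sinks_finite {g : ℂ[X]} (hg : 2 ≤ g.natDegree) : (sinks (ev g)).Finite := by
  obtain ⟨n, hn⟩ : ∃ n, g.natDegree = n + 1 := ⟨g.natDegree - 1, by omega⟩
  have hn1 : 1 ≤ n := by omega
  obtain ⟨x, hx⟩ := surj_holds n g hn1 hn
  set a : ℂ := g.coeff (n + 1) with ha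
  have ha0 : a ≠ 0 := by
    rw [ha, ← hn, coeff_natDegree, Ne, leadingCoeff_eq_zero]
    rintro rfl
    simp at hg
  have hfx : fx a n x = ev g := by
    funext w
    show (fam a n x).eval w = g.eval w
    rw [hx]
  set G := ev g with hG
  have key : ∀ z ∈ sinks G, ∃ (i : Fin n) (P l : ℕ), 0 < P ∧ G^[P] z = z ∧
      Tendsto (fun k : ℕ => G^[P * k] (x (some i))) atTop (𝓝 (G^[l] z)) := by
    rintro z ⟨P, hP, h1, h2⟩
    obtain ⟨i, l, h3⟩ := fatp_holds ko0_holds ko1_holds ko2_holds ko3_holds root_holds kbp_holds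
      a n P ha0 hn1 hP x z (by rw [hfx]; exact h1) (by rw [hfx]; exact h2)
    rw [hfx] at h3
    exact ⟨i, P, l, hP, h1, h3.2.2⟩
  have hsub : sinks G ⊆ ⋃ i : Fin n, {z | ∃ P l : ℕ, 0 < P ∧ G^[P] z = z ∧
      Tendsto (fun k : ℕ => G^[P * k] (x (some i))) atTop (𝓝 (G^[l] z))} := by
    intro z hz
    obtain ⟨i, P, l, h1, h2, h3⟩ := key z hz
    exact mem_iUnion.mpr ⟨i, P, l, h1, h2, h3⟩
  refine (Set.finite_iUnion fun i => ?_).subset hsub
  by_cases hne : {z | ∃ P l : ℕ, 0 < P ∧ G^[P] z = z ∧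
      Tendsto (fun k : ℕ => G^[P * k] (x (some i))) atTop (𝓝 (G^[l] z))} = ∅
  · rw [hne]; exact Set.finite_empty
  obtain ⟨z, P, l, hP, h1, h2⟩ := Set.nonempty_iff_ne_empty.mpr hne
  refine ((Finset.range P).finite_toSet.image fun j => G^[j] z).subset ?_
  rintro z' ⟨P', l', hP', h1', h2'⟩
  have t1 : Tendsto (fun k : ℕ => G^[P * (P' * k)] (x (some i))) atTop (𝓝 (G^[l] z)) :=
    h2.comp (tendsto_id.const_mul_atTop' hP')
  have t2 : Tendsto (fun k : ℕ => G^[P' * (P * k)] (x (some i))) atTop (𝓝 (G^[l'] z')) :=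
    h2'.comp (tendsto_id.const_mul_atTop' hP)
  have t3 : G^[l] z = G^[l'] z' := by
    refine tendsto_nhds_unique t1 (t2.congr fun k => ?_)
    rw [show P' * (P * k) = P * (P' * k) by ring]
  have h4 : l' ≤ P' * l' := Nat.le_mul_of_pos_left l' hP'
  have h5 : z' = G^[P' * l' - l' + l] z := by
    have e1 : G^[P' * l'] z' = z' := by
      rw [Function.iterate_mul]; exact Function.iterate_fixed h1' l'
    rw [Function.iterate_add_apply, t3, ← Function.iterate_add_apply,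
      show P' * l' - l' + l' = P' * l' by omega, e1]
  refine ⟨(P' * l' - l' + l) % P, Finset.mem_coe.mpr (Finset.mem_range.mpr (Nat.mod_lt _ hP)), ?_⟩
  show G^[(P' * l' - l' + l) % P] z = z'
  conv_rhs => rw [h5, ← Nat.mod_add_div (P' * l' - l' + l) P]
  rw [Function.iterate_add_apply]
  congr 1
  rw [Function.iterate_mul]
  exact (Function.iterate_fixed h1 _).symm

theorem common_period {G : ℂ → ℂ} (hG : Differentiable ℂ G) (hA : (sinks G).Finite) :
    ∃ P : ℕ, 0 < P ∧ ∀ a ∈ sinks G, G^[P] a = a ∧ ‖deriv G^[P] a‖ < 1 := by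
  classical
  choose! p hp1 hp2 hp3 using fun (a : ℂ) (ha : a ∈ sinks G) => ha
  refine ⟨∏ a ∈ hA.toFinset, p a, Finset.prod_pos fun a ha => hp1 a (hA.mem_toFinset.mp ha), ?_⟩
  intro a ha
  obtain ⟨m, hm⟩ := Finset.dvd_prod_of_mem p (hA.mem_toFinset.mpr ha)
  have hpos : 0 < ∏ a ∈ hA.toFinset, p a :=
    Finset.prod_pos fun a ha => hp1 a (hA.mem_toFinset.mp ha)
  rw [hm] at hpos ⊢
  have hm0 : m ≠ 0 := by rintro rfl; simp at hpos
  refine ⟨by rw [Function.iterate_mul]; exact Function.iterate_fixed (hp2 a ha) m, ?_⟩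
  have h1 : HasDerivAt (G^[p a])^[m] ((deriv G^[p a] a) ^ m) a :=
    HasDerivAt.iterate _ ((hG.iterate (p a)) a).hasDerivAt (hp2 a ha) m
  rw [Function.iterate_mul, h1.deriv, norm_pow]
  exact pow_lt_one₀ (norm_nonneg _) (hp3 a ha) hm0

theorem map_sinks {G : ℂ → ℂ} (hG : Differentiable ℂ G) {a : ℂ} (ha : a ∈ sinks G) :
    G a ∈ sinks G := by
  obtain ⟨p, hp, h1, h2⟩ := ha
  have h3 := ko0_holds G p hG hp
  have h4 : Sk G p a a := h3.2.2.2.2 a h1 h2
  have h5 := fatp_step ko0_holds hG hp h4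
  exact ⟨p, hp, h5.1, h5.2.1⟩

theorem good_iff {G : ℂ → ℂ} (hG : Differentiable ℂ G) {P : ℕ} (hP : 0 < P)
    (hAP : ∀ a ∈ sinks G, G^[P] a = a ∧ ‖deriv G^[P] a‖ < 1) (z : ℂ) :
    Gd G (sinks G) P z ↔ Good G z := by
  constructor
  · rintro (h | ⟨a, ha, h⟩)
    · exact Or.inl h
    · exact Or.inr ⟨P, hP, a, (hAP a ha).1, (hAP a ha).2, h⟩
  · rintro (h | ⟨p, hp, a, h1, h2, h3⟩)
    · exact Or.inl h
    · have ha : a ∈ sinks G := ⟨p, hp, h1, h2⟩
      refine Or.inr ⟨a, ha, ?_⟩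
      obtain ⟨ρ, hρ, h4⟩ := unif_att hG hp h1 h2 h3
      rw [Metric.tendsto_nhds]
      intro ε hε
      have h5 := (tendsto_id.const_mul_atTop' hP).eventually (h4 ε hε)
      filter_upwards [h5] with k hk
      have h6 := hk z (mem_ball_self hρ)
      have h7 : G^[P * k] a = a := by
        rw [Function.iterate_mul]; exact Function.iterate_fixed (hAP a ha).1 k
      simpa [h7] using h6

end Pool.Agent.H400R3.HI
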