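import Mathlib
import Pool.Agent.H400R3.HI.Fatou

/-! Hyperbolicity of `f(g^n(z)) + s` for large `n`. -/

set_option autoImplicit false

open Topology Filter Metric Set Polynomial MeasureTheory

namespace Pool.Agent.H400R3.HI

open Pool.Agent.H713R5.QJ

theorem ev_diff (p : ℂ[X]) : Differentiable ℂ (ev p) := p.differentiable

/-- linear lower bound at infinity -/
theorem lin_bound {p : ℂ[X]} (hp : 1 ≤ p.natDegree) :
    ∃ c > 0, ∃ R : ℝ, ∀ R' ≥ R, ∀ w, R' ≤ ‖w‖ → c * ‖w‖ ≤ ‖ev p w‖ := by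
  have key : ∃ c > 0, ∃ R : ℝ, ∀ w : ℂ, R ≤ ‖w‖ → c ≤ ‖p.divX.eval w‖ := by
    by_cases h1 : p.natDegree = 1
    · have h2 : p.divX.natDegree = 0 := by rw [natDegree_divX_eq_natDegree_tsub_one, h1]
      rw [eq_C_of_natDegree_eq_zero h2]
      refine ⟨‖p.divX.coeff 0‖, norm_pos_iff.mpr ?_, 0, fun w _ => by simp⟩
      rw [coeff_divX, zero_add, ← h1, coeff_natDegree, Ne, leadingCoeff_eq_zero]
      rintro rfl
      simp at h1
    · have h2 : 0 < p.divX.degree := by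
        rw [← natDegree_pos_iff_degree_pos, natDegree_divX_eq_natDegree_tsub_one]
        omega
      have h3 := tendsto_norm_atTop p.divX h2 (tendsto_norm_cobounded_atTop (E := ℂ))
      obtain ⟨R, -, hR⟩ := (Filter.hasBasis_cobounded_norm.eventually_iff).mp
        (h3.eventually_ge_atTop 1)
      exact ⟨1, one_pos, R, fun w hw => hR hw⟩
  obtain ⟨c, hc, R, hR⟩ := key
  refine ⟨c / 2, by positivity, max R (2 * ‖p.coeff 0‖ / c), fun R' hR' w hw => ?_⟩
  have h1 := hR w ((le_max_left _ _).trans (hR'.le.trans hw))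
  have h2 : 2 * ‖p.coeff 0‖ / c ≤ ‖w‖ := (le_max_right _ _).trans (hR'.le.trans hw)
  rw [div_le_iff₀ hc] at h2
  have h3 : ev p w = p.divX.eval w * w + p.coeff 0 := by
    show p.eval w = _
    conv_lhs => rw [← divX_mul_X_add p]
    simp
  have h4 : ‖p.divX.eval w * w‖ ≤ ‖ev p w‖ + ‖p.coeff 0‖ := by
    have : p.divX.eval w * w = ev p w - p.coeff 0 := by rw [h3]; ring
    rw [this]
    exact norm_sub_le _ _
  rw [norm_mul] at h4
  have h5 : c * ‖w‖ ≤ ‖p.divX.eval w‖ * ‖w‖ := mul_le_mul_of_nonneg_right h1 (norm_nonneg _)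
  linarith

theorem two_bound {p : ℂ[X]} (hp : 2 ≤ p.natDegree) :
    ∃ R : ℝ, ∀ R' ≥ R, ∀ w, R' ≤ ‖w‖ → 2 * ‖w‖ ≤ ‖ev p w‖ := by
  have h2 : 0 < p.divX.degree := by
    rw [← natDegree_pos_iff_degree_pos, natDegree_divX_eq_natDegree_tsub_one]
    omega
  have h3 := tendsto_norm_atTop p.divX h2 (tendsto_norm_cobounded_atTop (E := ℂ))
  obtain ⟨R, -, hR⟩ := (Filter.hasBasis_cobounded_norm.eventually_iff).mp
    (h3.eventually_ge_atTop 3)
  refine ⟨max R ‖p.coeff 0‖, fun R' hR' w hw => ?_⟩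
  have h1 : 3 ≤ ‖p.divX.eval w‖ := hR ((le_max_left _ _).trans (hR'.le.trans hw))
  have h2 : ‖p.coeff 0‖ ≤ ‖w‖ := (le_max_right _ _).trans (hR'.le.trans hw)
  have h3 : ev p w = p.divX.eval w * w + p.coeff 0 := by
    show p.eval w = _
    conv_lhs => rw [← divX_mul_X_add p]
    simp
  have h4 : ‖p.divX.eval w * w‖ ≤ ‖ev p w‖ + ‖p.coeff 0‖ := by
    have : p.divX.eval w * w = ev p w - p.coeff 0 := by rw [h3]; ring
    rw [this]
    exact norm_sub_le _ _
  rw [norm_mul] at h4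
  have h5 : 3 * ‖w‖ ≤ ‖p.divX.eval w‖ * ‖w‖ := mul_le_mul_of_nonneg_right h1 (norm_nonneg _)
  linarith

/-- the marked values of the pair `f, g` -/
def Mk (f g : ℂ[X]) : Set ℂ :=
  {m | (∃ y, (derivative f).eval y = 0 ∧ m = f.eval y) ∨
    (∃ (z : ℂ) (k : ℕ), (derivative g).eval z = 0 ∧ 1 ≤ k ∧ m = f.eval ((ev g)^[k] z)) ∨
    ∃ a ∈ sinks (ev g), m = f.eval a}

/-- every critical point escapes or is attracted by a sink -/
def Hyp (p : ℂ[X]) : Prop := ∀ c : ℂ, (derivative p).eval c = 0 → Good (ev p) c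

theorem crit_finite {p : ℂ[X]} (hp : 1 ≤ p.natDegree) :
    {z : ℂ | (derivative p).eval z = 0}.Finite := by
  have h : derivative p ≠ 0 := by
    intro h0
    have := natDegree_eq_zero_of_derivative_eq_zero h0
    omega
  refine (Finset.finite_toSet (derivative p).roots.toFinset).subset fun z hz => ?_
  rw [Finset.mem_coe, Multiset.mem_toFinset, mem_roots h]
  exact hz

theorem ev_comp (f g : ℂ[X]) (n : ℕ) : ev (f.comp (g.comp^[n] X)) = ev f ∘ (ev g)^[n] := by
  funext z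
  show (f.comp (g.comp^[n] X)).eval z = f.eval ((ev g)^[n] z)
  rw [eval_comp, iterate_comp_eval, eval_X]
  rfl

theorem exists_crit_iter {G : ℂ → ℂ} (hG : Differentiable ℂ G) (N : ℕ) {v : ℂ}
    (h : deriv G^[N] v = 0) : ∃ j < N, deriv G (G^[j] v) = 0 := by
  induction N generalizing v with
  | zero =>
    exfalso
    rw [Function.iterate_zero, deriv_id] at h
    exact one_ne_zero h
  | succ N ih =>
    rw [Function.iterate_succ, deriv_comp _ ((hG.iterate N) _) (hG _), mul_eq_zero] at h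
    rcases h with h | h
    · obtain ⟨j, h1, h2⟩ := ih h
      exact ⟨j + 1, by omega, by rw [Function.iterate_succ_apply]; exact h2⟩
    · exact ⟨0, by omega, h⟩

/-- the deterministic criterion -/
theorem main {g : ℂ[X]} (hg : 2 ≤ g.natDegree) (hyp : Hyp g) {f : ℂ[X]} (hf : 1 ≤ f.natDegree)
    (hM : ∀ m ∈ Mk f g, Good (ev g) m) : ∀ᶠ n : ℕ in atTop, Hyp (f.comp (g.comp^[n] X)) := by
  have hG := ev_diff g
  have hφ := ev_diff f
  obtain ⟨c, hc, R1, hR1⟩ := lin_bound hf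
  obtain ⟨R2, hR2⟩ := two_bound hg
  set R : ℝ := max 1 (max R1 R2) with hR
  have hR0 : 0 < R := lt_of_lt_of_le one_pos (le_max_left _ _)
  have hφR := hR1 R ((le_max_left _ _).trans (le_max_right _ _))
  have hGR := hR2 R ((le_max_right _ _).trans (le_max_right _ _))
  have hA := sinks_finite hg
  obtain ⟨P, hP, hAP⟩ := common_period hG hA
  have hAG : ∀ a ∈ sinks (ev g), ev g a ∈ sinks (ev g) := fun a ha => map_sinks hG ha
  have hgd : ∀ z, Good (ev g) z → Gd (ev g) (sinks (ev g)) P z := fun z hz =>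
    (good_iff hG hP hAP z).mpr hz
  have hgood : ∀ a ∈ sinks (ev g), Gd (ev g) (sinks (ev g)) P (ev f a) := fun a ha =>
    hgd _ (hM _ (Or.inr (Or.inr ⟨a, ha, rfl⟩)))
  have h1 : ∀ᶠ n : ℕ in atTop, ∀ y ∈ {y : ℂ | (derivative f).eval y = 0},
      Good (ev f ∘ (ev g)^[n]) (ev f y) :=
    (Filter.eventually_all_finite (crit_finite hf)).mpr fun y hy =>
      mark_ev hG hφ hR0 hc hGR hφR hA hP hAG hAP hgood (hgd _ (hM _ (Or.inl ⟨y, hy, rfl⟩)))
  have h2 : ∀ᶠ n : ℕ in atTop, ∀ z ∈ {z : ℂ | (derivative g).eval z = 0}, ∀ k : ℕ, 1 ≤ k →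
      Good (ev f ∘ (ev g)^[n]) (ev f ((ev g)^[k] z)) :=
    (Filter.eventually_all_finite (crit_finite (by omega))).mpr fun z hz =>
      orbit_ev hG hφ hR0 hc hGR hφR hA hP hAG hAP hgood (hgd _ (hyp z hz)) fun k hk =>
        hgd _ (hM _ (Or.inr (Or.inl ⟨z, k, hz, hk, rfl⟩)))
  filter_upwards [h1, h2] with n hn1 hn2 x hx
  have hx' : deriv (ev f ∘ (ev g)^[n]) x = 0 := by
    rw [← ev_comp]
    have : deriv (ev (f.comp (g.comp^[n] X))) x =
        (derivative (f.comp (g.comp^[n] X))).eval x := Polynomial.deriv _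
    rw [this, hx]
  rw [ev_comp]
  apply good_of_map (hφ.comp (hG.iterate n))
  rw [deriv_comp _ (hφ _) ((hG.iterate n) _), mul_eq_zero] at hx'
  rcases hx' with h | h
  · have h3 : (derivative f).eval ((ev g)^[n] x) = 0 := by
      rw [← h]; exact (Polynomial.deriv _).symm
    exact hn1 _ h3
  · obtain ⟨j, hj, h3⟩ := exists_crit_iter hG n h
    have h4 : (derivative g).eval ((ev g)^[j] x) = 0 := by
      rw [← h3]; exact (Polynomial.deriv _).symm
    have h5 := hn2 _ h4 (n - j) (by omega)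
    rw [← Function.iterate_add_apply, show n - j + j = n by omega] at h5
    exact h5

theorem mk_countable {g : ℂ[X]} (hg : 2 ≤ g.natDegree) {f : ℂ[X]} (hf : 1 ≤ f.natDegree) :
    (Mk f g).Countable := by
  have e1 : {m : ℂ | ∃ y, (derivative f).eval y = 0 ∧ m = f.eval y}.Countable :=
    (((crit_finite hf).image fun y => f.eval y).countable).mono (by
      rintro m ⟨y, hy, rfl⟩; exact ⟨y, hy, rfl⟩)
  have e2 : {m : ℂ | ∃ (z : ℂ) (k : ℕ), (derivative g).eval z = 0 ∧ 1 ≤ k ∧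
      m = f.eval ((ev g)^[k] z)}.Countable := by
    have : (⋃ k : ℕ, (fun z => f.eval ((ev g)^[k] z)) ''
        {z : ℂ | (derivative g).eval z = 0}).Countable :=
      Set.countable_iUnion fun k => ((crit_finite (by omega)).image _).countable
    refine this.mono ?_
    rintro m ⟨z, k, hz, -, rfl⟩
    exact mem_iUnion.mpr ⟨k, z, hz, rfl⟩
  have e3 : {m : ℂ | ∃ a ∈ sinks (ev g), m = f.eval a}.Countable :=
    (((sinks_finite hg).image fun y => f.eval y).countable).mono (by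
      rintro m ⟨y, hy, rfl⟩; exact ⟨y, hy, rfl⟩)
  exact (e1.union (e2.union e3)).mono fun m hm => hm

theorem mk_add_C (f g : ℂ[X]) (s : ℂ) {m : ℂ} (hm : m ∈ Mk (f + C s) g) : m - s ∈ Mk f g := by
  rcases hm with ⟨y, hy, rfl⟩ | ⟨z, k, hz, hk, rfl⟩ | ⟨a, ha, rfl⟩
  · exact Or.inl ⟨y, by simpa using hy, by simp⟩
  · exact Or.inr (Or.inl ⟨z, k, hz, hk, by simp⟩)
  · exact Or.inr (Or.inr ⟨a, ha, by simp⟩)

theorem main_ae {g : ℂ[X]} (hg : 2 ≤ g.natDegree) (hyp : Hyp g)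
    (hvol : volume {z : ℂ | ¬ Good (ev g) z} = 0) {f : ℂ[X]} (hf : 1 ≤ f.natDegree) :
    ∀ᵐ s : ℂ, ∀ᶠ n : ℕ in atTop, Hyp (f.comp (g.comp^[n] X) + C s) := by
  have h1 : ∀ᵐ s : ℂ, ∀ m ∈ Mk f g, Good (ev g) (m + s) := by
    rw [ae_ball_iff (mk_countable hg hf)]
    intro m _
    rw [ae_iff]
    exact (measure_preimage_add volume m {z : ℂ | ¬ Good (ev g) z}).trans hvol
  filter_upwards [h1] with s hs
  have hf' : 1 ≤ (f + C s).natDegree := by rwa [natDegree_add_C]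
  have h2 := main hg hyp hf' fun m hm => by
    have := hs _ (mk_add_C f g s hm)
    rwa [sub_add_cancel] at this
  filter_upwards [h2] with n hn
  rwa [add_comp, C_comp] at hn

end Pool.Agent.H400R3.HI
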