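import Mathlib
import Pool.Agent.H400R3.HI.Main

/-! The set of the points which neither escape nor are attracted by a sink of a hyperbolic
polynomial has empty interior. -/

set_option autoImplicit false

open Topology Filter Metric Set Polynomial

namespace Pool.Agent.H400R3.HI

open Pool.Agent.H713R5.QJ Pool.Agent.H713R3.ZA

/-- inverse branches -/
theorem branch {G : ℂ → ℂ} (hG : Differentiable ℂ G) {R : ℝ} (hR : 0 < R)
    (hGR : ∀ w, R ≤ ‖w‖ → 2 * ‖w‖ ≤ ‖G w‖) {n : ℕ} {y : ℂ} {δ : ℝ} (hδ : 0 < δ)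
    (hnc : ∀ z, G^[n] z ∈ ball y δ → deriv G^[n] z ≠ 0) {x : ℂ} (hx : G^[n] x = y) :
    ∃ h : ℂ → ℂ, DifferentiableOn ℂ h (ball y δ) ∧ h y = x ∧ ∀ s ∈ ball y δ, G^[n] (h s) = s := by
  have key := root_holds ℂ (ball y δ) (fun s z => G^[n] z - s) isOpen_ball
    (convex_ball y δ) ?_ ?_ ?_ y (mem_ball_self hδ) x (by simp [hx])
  · obtain ⟨Z, h1, h2, h3, -⟩ := key
    exact ⟨Z, h1, h2, fun s hs => sub_eq_zero.mp (h3 s hs)⟩
  · have h1 : ContDiff ℂ 1 (G^[n]) := (hG.iterate n).contDiff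
    exact ((h1.comp contDiff_snd).sub contDiff_fst).contDiffOn
  · intro K hK hKc M
    refine ⟨max R (M + (‖y‖ + δ)), fun s hs z hz => ?_⟩
    by_contra hlt
    rw [not_le, max_lt_iff] at hlt
    have h1 := pow_le_iter hR hGR hlt.1.le n
    have h2 : (1 : ℝ) ≤ 2 ^ n := one_le_pow₀ (by norm_num)
    have h3 : ‖z‖ ≤ ‖G^[n] z‖ := by nlinarith [norm_nonneg z]
    have h4 : ‖G^[n] z‖ ≤ ‖G^[n] z - s‖ + ‖s‖ := by
      simpa using norm_add_le (G^[n] z - s) s
    have h5 : ‖s‖ ≤ ‖y‖ + δ := by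
      have h6 := hK hs
      rw [mem_ball, dist_eq_norm] at h6
      have := norm_add_le (s - y) y
      rw [sub_add_cancel] at this
      linarith
    linarith [hlt.2]
  · intro s hs z hz
    have h1 : deriv (fun z => G^[n] z - s) z = deriv G^[n] z := by
      rw [deriv_sub_const]
    rw [h1]
    have h2 : G^[n] z = s := sub_eq_zero.mp hz
    exact hnc z (h2 ▸ hs)

/-- a bounded holomorphic function with large derivative at the centre covers a disc -/
theorem cover {δ B m : ℝ} (hδ : 0 < δ) (hB : 0 < B) (hm : 0 < m) :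
    ∃ ρ > 0, ∀ (h : ℂ → ℂ) (y : ℂ), DifferentiableOn ℂ h (ball y δ) →
      (∀ s ∈ ball y δ, ‖h s‖ ≤ B) → m ≤ ‖deriv h y‖ → ball (h y) ρ ⊆ h '' ball y δ := by
  set B1 : ℝ := 2 * B / δ with hB1
  have hB1' : 0 < B1 := by positivity
  set r : ℝ := min (δ / 2) (m / 2 * (δ / (2 * B1))) with hr
  have hr0 : 0 < r := by positivity
  have hrδ : r < δ := lt_of_le_of_lt (min_le_left _ _) (by linarith)
  refine ⟨r * (m / 2) / 2, by positivity, fun h y hd hb hder => ?_⟩
  have hy : y ∈ ball y δ := mem_ball_self hδ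
  have h1 : MapsTo h (ball y δ) (closedBall (h y) (2 * B)) := by
    intro s hs
    rw [mem_closedBall, dist_eq_norm]
    have := norm_sub_le (h s) (h y)
    linarith [hb s hs, hb y hy]
  have h2 : ∀ z ∈ ball y δ, ‖dslope h y z‖ ≤ B1 := fun z hz =>
    Complex.norm_dslope_le_div_of_mapsTo_ball hd h1 hz
  have h3 : DifferentiableOn ℂ (dslope h y) (ball y δ) :=
    (Complex.differentiableOn_dslope (ball_mem_nhds y hδ)).mpr hd
  have h4 : MapsTo (dslope h y) (ball y δ) (closedBall (dslope h y y) (2 * B1)) := by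
    intro s hs
    rw [mem_closedBall, dist_eq_norm]
    have := norm_sub_le (dslope h y s) (dslope h y y)
    linarith [h2 s hs, h2 y hy]
  have h5 : ∀ z ∈ sphere y r, r * (m / 2) ≤ ‖h z - h y‖ := by
    intro z hz
    have hzr : dist z y = r := hz
    have hzb : z ∈ ball y δ := by rw [mem_ball, hzr]; exact hrδ
    have h6 := Complex.dist_le_div_mul_dist_of_mapsTo_ball h3 h4 hzb
    rw [dslope_same, hzr, dist_eq_norm] at h6
    have h7 : 2 * B1 / δ * r ≤ m / 2 := by
      have h8 : r ≤ m / 2 * (δ / (2 * B1)) := min_le_right _ _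
      calc 2 * B1 / δ * r ≤ 2 * B1 / δ * (m / 2 * (δ / (2 * B1))) := by gcongr
        _ = m / 2 := by field_simp
    have h8 : m / 2 ≤ ‖dslope h y z‖ := by
      have := norm_sub_norm_le (deriv h y) (dslope h y z)
      rw [norm_sub_rev] at this
      linarith
    have h9 : h z - h y = (z - y) * dslope h y z := by
      have := sub_smul_dslope h y z
      rw [smul_eq_mul] at this
      exact this.symm
    rw [h9, norm_mul, ← dist_eq_norm, hzr]
    gcongr
  have h10 : DiffContOnCl ℂ h (ball y r) := by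
    refine (hd.mono ?_).diffContOnCl
    rw [closure_ball y hr0.ne']
    exact closedBall_subset_ball hrδ
  have hder0 : deriv h y ≠ 0 := by
    intro h0
    rw [h0, norm_zero] at hder
    linarith
  have h11 : HasDerivAt h (deriv h y) y := (hd.differentiableAt (ball_mem_nhds y hδ)).hasDerivAt
  have h12 : ∃ᶠ z in 𝓝 y, h z ≠ h y :=
    (h11.eventually_ne (c := h y) hder0).frequently.filter_mono nhdsWithin_le_nhds
  exact (h10.ball_subset_image_closedBall hr0 h5 h12).trans
    (image_mono (closedBall_subset_ball hrδ))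

section

variable {G : ℂ → ℂ} (hG : Differentiable ℂ G) {R : ℝ} (hR : 0 < R)
  (hGR : ∀ w, R ≤ ‖w‖ → 2 * ‖w‖ ≤ ‖G w‖) {A : Set ℂ} (hA : A.Finite) {P : ℕ} (hP : 0 < P)
  (hAG : ∀ a ∈ A, G a ∈ A) (hAP : ∀ a ∈ A, G^[P] a = a ∧ ‖deriv G^[P] a‖ < 1)

include hG hR hGR hP hAP in
theorem gd_open : IsOpen {z | Gd G A P z} := by
  rw [Metric.isOpen_iff]
  rintro z (hz | ⟨a, ha, hz⟩)
  · obtain ⟨ρ, hρ, h⟩ := unif_esc hG hR hGR hz
    obtain ⟨n, hn⟩ := (h R).exists
    refine ⟨ρ, hρ, fun w hw => Or.inl ?_⟩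
    exact good_of_iter_esc (m := n) (esc_of_large hR hGR (hn w hw).le)
  · obtain ⟨ρ, hρ, h⟩ := unif_att hG hP (hAP a ha).1 (hAP a ha).2 hz
    refine ⟨ρ, hρ, fun w hw => Or.inr ⟨a, ha, ?_⟩⟩
    rw [Metric.tendsto_nhds]
    intro ε hε
    filter_upwards [(tendsto_id.const_mul_atTop' hP).eventually (h ε hε)] with k hk
    have h6 := hk w hw
    have h7 : G^[P * k] a = a := by
      rw [Function.iterate_mul]; exact Function.iterate_fixed (hAP a ha).1 k
    simpa [h7] using h6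

include hR hGR in
theorem bad_norm {z : ℂ} (hz : ¬ Gd G A P z) : ‖z‖ < R := by
  by_contra h
  exact hz (Or.inl (esc_of_large hR hGR (not_lt.mp h)))

include hP hAG hG in
theorem gd_of_iter {z : ℂ} (n : ℕ) (hz : Gd G A P (G^[n] z)) : Gd G A P z := by
  rcases hz with hz | ⟨a, ha, hz⟩
  · exact Or.inl (good_of_iter_esc hz)
  · -- `G^[P k + n] z → a`; apply `G^[P n - n]`
    have h1 : Tendsto (fun k : ℕ => G^[P * n - n] (G^[P * k] (G^[n] z))) atTop
        (𝓝 (G^[P * n - n] a)) := ((hG.iterate _).continuous.tendsto a).comp hz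
    refine Or.inr ⟨G^[P * n - n] a, ?_, ?_⟩
    · generalize P * n - n = j
      induction j with
      | zero => exact ha
      | succ j ih => rw [Function.iterate_succ_apply']; exact hAG _ ih
    · rw [← tendsto_add_atTop_iff_nat n]
      refine h1.congr fun k => ?_
      rw [← Function.iterate_add_apply, ← Function.iterate_add_apply]
      congr 1
      have : n ≤ P * n := Nat.le_mul_of_pos_left n hP
      have e : P * (k + n) = P * k + P * n := by ring
      omega

include hAG hG in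
theorem gd_iter {z : ℂ} (hz : Gd G A P z) (n : ℕ) : Gd G A P (G^[n] z) := by
  rcases hz with hz | ⟨a, ha, hz⟩
  · left
    have h1 := hz.comp (tendsto_add_atTop_nat n)
    refine h1.congr fun k => ?_
    show ‖G^[k + n] z‖ = _
    rw [Function.iterate_add_apply]
  · right
    have h1 : Tendsto (fun k : ℕ => G^[n] (G^[P * k] z)) atTop
        (𝓝 (G^[n] a)) := ((hG.iterate _).continuous.tendsto a).comp hz
    refine ⟨G^[n] a, ?_, ?_⟩
    · induction n with
      | zero => exact ha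
      | succ j ih =>
        rw [Function.iterate_succ_apply']
        exact hAG _ (ih (((hG.iterate _).continuous.tendsto a).comp hz))
    · refine h1.congr fun k => ?_
      rw [← Function.iterate_add_apply, ← Function.iterate_add_apply, add_comm]

include hG hR hGR hP hAG hAP in
theorem far {D : ℝ} (hD0 : 0 < D) (hD : ∀ a ∈ A, ∀ y, ¬ Gd G A P y → D ≤ dist a y) {z : ℂ}
    (hz : Gd G A P z) : ∀ᶠ n : ℕ in atTop, ∀ y, ¬ Gd G A P y → D / 2 ≤ dist (G^[n] z) y := by
  rcases hz with hz | ⟨a, ha, hz⟩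
  · filter_upwards [hz.eventually_ge_atTop (R + D)] with n hn y hy
    have h1 := bad_norm hR hGR hy
    rw [dist_eq_norm]
    have := norm_sub_norm_le (G^[n] z) y
    linarith
  · obtain ⟨ρ, hρ, h⟩ := unif_att hG hP (hAP a ha).1 (hAP a ha).2 hz
    filter_upwards [h (D / 2) (by linarith)] with n hn y hy
    have h1 := hn z (mem_ball_self hρ)
    have h2 : G^[n] a ∈ A := by
      clear h1 hn
      induction n with
      | zero => exact ha
      | succ j ih => rw [Function.iterate_succ_apply']; exact hAG _ ih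
    have h3 := hD _ h2 y hy
    have h4 := dist_triangle (G^[n] a) (G^[n] z) y
    rw [dist_comm (G^[n] a) (G^[n] z)] at h4
    linarith

include hG hR hGR hP hAG hAP in
theorem away {D : ℝ} (hD0 : 0 < D) (hD : ∀ a ∈ A, ∀ y, ¬ Gd G A P y → D ≤ dist a y) {z : ℂ}
    (hz : Gd G A P z) : ∀ᶠ δ : ℝ in 𝓝[>] 0, ∀ k : ℕ, ∀ y, ¬ Gd G A P y →
      δ ≤ dist (G^[k] z) y := by
  obtain ⟨k0, hk0⟩ := Filter.eventually_atTop.mp (far hG hR hGR hP hAG hAP hD0 hD hz)
  have hcl : IsClosed {y | ¬ Gd G A P y} := (gd_open hG hR hGR hP hAP).isClosed_compl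
  have hfin : ((fun k : ℕ => G^[k] z) '' (Finset.range k0 : Set ℕ)).Finite :=
    (Finset.finite_toSet _).image _
  have hdisj : Disjoint ((fun k : ℕ => G^[k] z) '' (Finset.range k0 : Set ℕ))
      {y | ¬ Gd G A P y} := by
    rw [Set.disjoint_left]
    rintro _ ⟨k, -, rfl⟩ h
    exact h (gd_iter hG hAG hz k)
  obtain ⟨r, hr, h⟩ := Metric.exists_pos_forall_lt_edist hfin.isCompact hcl hdisj
  have h1 : ∀ᶠ δ : ℝ in 𝓝[>] 0, δ < r := nhdsWithin_le_nhds (gt_mem_nhds (by exact_mod_cast hr))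
  have h2 : ∀ᶠ δ : ℝ in 𝓝[>] 0, δ < D / 2 := nhdsWithin_le_nhds (gt_mem_nhds (by linarith))
  filter_upwards [h1, h2] with δ hδ1 hδ2 k y hy
  by_cases hk : k < k0
  · have h3 := h (G^[k] z) ⟨k, by simpa using hk, rfl⟩ y hy
    have h4 : (r : ℝ) < dist (G^[k] z) y := by
      rw [edist_nndist, ENNReal.coe_lt_coe] at h3
      exact_mod_cast h3
    exact (hδ1.trans h4).le
  · exact hδ2.le.trans (hk0 k (not_lt.mp hk) y hy)

theorem mul_deriv_branch {F h : ℂ → ℂ} (hF : Differentiable ℂ F) {y : ℂ} {δ : ℝ} (hδ : 0 < δ)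
    (hd : DifferentiableOn ℂ h (ball y δ)) (hinv : ∀ s ∈ ball y δ, F (h s) = s) :
    deriv F (h y) * deriv h y = 1 := by
  have h1 : HasDerivAt h (deriv h y) y := (hd.differentiableAt (ball_mem_nhds y hδ)).hasDerivAt
  have h2 : HasDerivAt (F ∘ h) (deriv F (h y) * deriv h y) y :=
    (hF (h y)).hasDerivAt.comp y h1
  have h3 : F ∘ h =ᶠ[𝓝 y] id := by
    filter_upwards [ball_mem_nhds y hδ] with s hs using hinv s hs
  exact (h2.congr_of_eventuallyEq h3.symm).unique (hasDerivAt_id y)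

include hG hR hGR hA hP hAG hAP in
theorem empty_int (hC : {c | deriv G c = 0}.Finite) (hCg : ∀ c, deriv G c = 0 → Gd G A P c)
    (hAgd : ∀ a ∈ A, Gd G A P a) {x₀ : ℂ} {r₀ : ℝ} (hr₀ : 0 < r₀)
    (hball : ∀ w ∈ ball x₀ r₀, ¬ Gd G A P w) : False := by
  set N : Set ℂ := {y | ¬ Gd G A P y} with hN
  have hcl : IsClosed N := (gd_open hG hR hGR hP hAP).isClosed_compl
  have hNiter : ∀ y ∈ N, ∀ n, G^[n] y ∈ N := fun y hy n h => hy (gd_of_iter hG hP hAG n h)
  have hNR : ∀ y ∈ N, ‖y‖ < R := fun y hy => bad_norm hR hGR hy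
  -- distance to the sinks
  obtain ⟨D, hD0, hD⟩ : ∃ D : ℝ, 0 < D ∧ ∀ a ∈ A, ∀ y, ¬ Gd G A P y → D ≤ dist a y := by
    obtain ⟨r, hr, h⟩ := Metric.exists_pos_forall_lt_edist hA.isCompact hcl
      (Set.disjoint_left.mpr fun a ha h => h (hAgd a ha))
    refine ⟨r, by exact_mod_cast hr, fun a ha y hy => ?_⟩
    have h3 := h a ha y hy
    rw [edist_nndist, ENNReal.coe_lt_coe] at h3
    exact_mod_cast h3.le
  -- distance to the orbits of the critical points
  obtain ⟨δ, ⟨hδc, hδD⟩, hδ0⟩ : ∃ δ : ℝ, ((∀ c ∈ {c | deriv G c = 0}, ∀ k : ℕ, ∀ y,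
      ¬ Gd G A P y → δ ≤ dist (G^[k] c) y) ∧ δ < D / 2) ∧ 0 < δ := by
    have h1 : ∀ᶠ δ : ℝ in 𝓝[>] 0, ∀ c ∈ {c | deriv G c = 0}, ∀ k : ℕ, ∀ y,
        ¬ Gd G A P y → δ ≤ dist (G^[k] c) y :=
      (Filter.eventually_all_finite hC).mpr fun c hc =>
        away hG hR hGR hP hAG hAP hD0 hD (hCg c hc)
    have h2 : ∀ᶠ δ : ℝ in 𝓝[>] 0, δ < D / 2 :=
      nhdsWithin_le_nhds (gt_mem_nhds (by linarith))
    exact ((h1.and h2).and self_mem_nhdsWithin).exists
  have hnc : ∀ n : ℕ, ∀ y ∈ N, ∀ z, G^[n] z ∈ ball y δ → deriv G^[n] z ≠ 0 := by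
    intro n y hy z hz h0
    obtain ⟨j, hj, hc⟩ := exists_crit_iter hG n h0
    have h1 := hδc _ hc (n - j) y hy
    rw [← Function.iterate_add_apply, show n - j + j = n by omega] at h1
    rw [mem_ball] at hz
    linarith
  -- bound at the centre
  set C₀ : ℝ := R / (r₀ / 2) with hC₀
  have hC₀0 : 0 < C₀ := by positivity
  have hx₀N : x₀ ∈ N := hball x₀ (mem_ball_self hr₀)
  have hbd : ∀ n : ℕ, ‖deriv G^[n] x₀‖ ≤ C₀ := fun n =>
    Complex.norm_deriv_le_of_forall_mem_sphere_norm_le (by linarith)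
      (hG.iterate n).diffContOnCl fun z hz => (hNR _ (hNiter z (hball z (by
        rw [mem_sphere] at hz; rw [mem_ball, hz]; linarith)) n)).le
  obtain ⟨ρ, hρ, hcov⟩ := cover (δ := δ) (B := R + δ) (m := 1 / C₀) hδ0 (by linarith)
    (by positivity)
  have hmap : ∀ n : ℕ, ∀ x ∈ N, ‖deriv G^[n] x‖ ≤ C₀ →
      ∀ w ∈ ball x ρ, G^[n] w ∈ ball (G^[n] x) δ := by
    intro n x hx hder w hw
    have hyN := hNiter x hx n
    obtain ⟨h, hd, hy, hinv⟩ := branch hG hR hGR hδ0 (hnc n _ hyN) rfl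
    have h1 : deriv G^[n] x * deriv h (G^[n] x) = 1 := by
      have := mul_deriv_branch (hG.iterate n) hδ0 hd hinv
      rwa [hy] at this
    have h2 : 1 / C₀ ≤ ‖deriv h (G^[n] x)‖ := by
      rw [div_le_iff₀ hC₀0]
      have h3 : ‖deriv G^[n] x‖ * ‖deriv h (G^[n] x)‖ = 1 := by rw [← norm_mul, h1, norm_one]
      nlinarith [norm_nonneg (deriv h (G^[n] x))]
    have h3 : ∀ s ∈ ball (G^[n] x) δ, ‖h s‖ ≤ R + δ := by
      intro s hs
      by_contra hlt
      rw [not_le] at hlt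
      have h4 : R ≤ ‖h s‖ := by linarith
      have h5 := pow_le_iter hR hGR h4 n
      rw [hinv s hs] at h5
      have h6 : (1 : ℝ) ≤ 2 ^ n := one_le_pow₀ (by norm_num)
      have h7 : ‖s‖ < R + δ := by
        rw [mem_ball, dist_eq_norm] at hs
        have h8 := norm_add_le (s - G^[n] x) (G^[n] x)
        rw [sub_add_cancel] at h8
        linarith [hNR _ hyN]
      nlinarith [norm_nonneg (h s)]
    have h4 := hcov h _ hd h3 h2
    rw [hy] at h4
    obtain ⟨s, hs, rfl⟩ := h4 hw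
    rw [hinv s hs]
    exact hs
  -- the set at distance `> η` from the good points
  set η : ℝ := min (ρ / 2) (r₀ / 2) with hη
  have hη0 : 0 < η := by positivity
  have hηρ : η < ρ := lt_of_le_of_lt (min_le_left _ _) (by linarith)
  have hηr : η < r₀ := lt_of_le_of_lt (min_le_right _ _) (by linarith)
  have hne : Nᶜ.Nonempty := ⟨(R : ℂ), fun h => by
    have := hNR _ h
    rw [Complex.norm_real, Real.norm_eq_abs, abs_of_pos hR] at this
    exact lt_irrefl _ this⟩
  set U : Set ℂ := {x | η < infDist x Nᶜ} with hU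
  have hcont : Continuous fun x : ℂ => infDist x Nᶜ := continuous_infDist_pt _
  have hN_of : ∀ x, 0 < infDist x Nᶜ → x ∈ N := by
    intro x hx
    by_contra h
    rw [infDist_zero_of_mem (s := Nᶜ) h] at hx
    exact lt_irrefl _ hx
  have hclU : closure U ⊆ {x | η ≤ infDist x Nᶜ} :=
    closure_lt_subset_le continuous_const hcont
  have hclN : closure U ⊆ N := fun x hx => hN_of x (hη0.trans_le (hclU hx))
  have hx₀U : x₀ ∈ U := by
    show η < infDist x₀ Nᶜ
    refine hηr.trans_le ((le_infDist hne).mpr fun y hy => ?_)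
    by_contra hlt
    rw [not_le, dist_comm] at hlt
    exact hy (hball y hlt)
  have hUb : Bornology.IsBounded U :=
    (isBounded_ball (x := (0 : ℂ)) (r := R)).subset fun x hx => by
      rw [mem_ball_zero_iff]; exact hNR x (hclN (subset_closure hx))
  have hnz : ∀ n : ℕ, ∀ z ∈ N, deriv G^[n] z ≠ 0 := fun n z hz =>
    hnc n (G^[n] z) (hNiter z hz n) z (mem_ball_self hδ0)
  have hz : ∀ n : ℕ, ∃ z ∈ frontier U, ‖deriv G^[n] z‖ ≤ C₀ := by
    intro n
    have hd : DiffContOnCl ℂ (fun z => (deriv G^[n] z)⁻¹) U := by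
      refine DifferentiableOn.diffContOnCl fun z hz => ?_
      have h1 : Differentiable ℂ (deriv G^[n]) := by
        have h2 : ContDiff ℂ 2 (G^[n]) := (hG.iterate n).contDiff
        exact (h2.differentiable_deriv_two)
      exact ((h1 z).inv (hnz n z (hclN hz))).differentiableWithinAt
    obtain ⟨z, hzf, hmax⟩ := Complex.exists_mem_frontier_isMaxOn_norm hUb ⟨x₀, hx₀U⟩ hd
    refine ⟨z, hzf, ?_⟩
    have h1 := hmax (subset_closure hx₀U)
    have h2 : ‖(deriv G^[n] x₀)⁻¹‖ ≤ ‖(deriv G^[n] z)⁻¹‖ := h1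
    rw [norm_inv, norm_inv] at h2
    have hz0 : 0 < ‖deriv G^[n] z‖ :=
      norm_pos_iff.mpr (hnz n z (hclN (frontier_subset_closure hzf)))
    have hx0 : 0 < ‖deriv G^[n] x₀‖ := norm_pos_iff.mpr (hnz n x₀ hx₀N)
    exact ((inv_le_inv₀ hx0 hz0).mp h2).trans (hbd n)
  choose z hzf hzd using hz
  have hcpt : IsCompact (frontier U) :=
    hUb.isCompact_closure.of_isClosed_subset isClosed_frontier frontier_subset_closure
  obtain ⟨a, ha, φ, hφ, hlim⟩ := hcpt.tendsto_subseq hzf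
  have ha1 : infDist a Nᶜ < ρ := by
    have h1 : a ∈ {x | η = infDist x Nᶜ} := frontier_lt_subset_eq continuous_const hcont ha
    have h2 : η = infDist a Nᶜ := h1
    rw [← h2]; exact hηρ
  obtain ⟨q, hq, hqa⟩ := (infDist_lt_iff hne).mp ha1
  have hqg : Gd G A P q := not_not.mp hq
  have e1 := hφ.tendsto_atTop.eventually (far hG hR hGR hP hAG hAP hD0 hD hqg)
  have e2 : ∀ᶠ k : ℕ in atTop, dist (z (φ k)) q < ρ := by
    have h1 : Tendsto (fun k => dist ((z ∘ φ) k) q) atTop (𝓝 (dist a q)) :=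
      hlim.dist tendsto_const_nhds
    exact h1.eventually (gt_mem_nhds hqa)
  obtain ⟨k, hk1, hk2⟩ := (e1.and e2).exists
  have hzN : z (φ k) ∈ N := hclN (frontier_subset_closure (hzf _))
  have h1 := hmap (φ k) (z (φ k)) hzN (hzd _) q (by rw [mem_ball, dist_comm]; exact hk2)
  have h2 := hk1 _ (hNiter _ hzN (φ k))
  rw [mem_ball] at h1
  linarith

end

/-- the non-good points of a hyperbolic polynomial form a closed set with empty interior -/
theorem good_dense {g : ℂ[X]} (hg : 2 ≤ g.natDegree) (hyp : Hyp g) :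
    IsOpen {z | Good (ev g) z} ∧ Dense {z | Good (ev g) z} := by
  have hG := ev_diff g
  obtain ⟨R2, hR2⟩ := two_bound hg
  set R : ℝ := max 1 R2 with hR
  have hR0 : 0 < R := lt_of_lt_of_le one_pos (le_max_left _ _)
  have hGR := hR2 R (le_max_right _ _)
  have hA := sinks_finite hg
  obtain ⟨P, hP, hAP⟩ := common_period hG hA
  have hAG : ∀ a ∈ sinks (ev g), ev g a ∈ sinks (ev g) := fun a ha => map_sinks hG ha
  have hset : {z | Good (ev g) z} = {z | Gd (ev g) (sinks (ev g)) P z} := by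
    ext z
    exact (good_iff hG hP hAP z).symm
  rw [hset]
  refine ⟨gd_open hG hR0 hGR hP hAP, ?_⟩
  have hder : ∀ z, deriv (ev g) z = (derivative g).eval z := fun z => Polynomial.deriv _
  have hC : {c | deriv (ev g) c = 0} = {z : ℂ | (derivative g).eval z = 0} := by
    ext c; show deriv (ev g) c = 0 ↔ _; rw [hder]; rfl
  rw [Metric.dense_iff]
  intro x r hr
  by_contra hcon
  refine empty_int hG hR0 hGR hA hP hAG hAP (by rw [hC]; exact crit_finite (by omega)) ?_ ?_
    (x₀ := x) (r₀ := r) hr ?_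
  · intro c hc
    rw [hder] at hc
    exact (good_iff hG hP hAP c).mpr (hyp c hc)
  · intro a ha
    refine Or.inr ⟨a, ha, ?_⟩
    have h1 : ∀ k : ℕ, (ev g)^[P * k] a = a := fun k => by
      rw [Function.iterate_mul]; exact Function.iterate_fixed (hAP a ha).1 k
    simp only [h1]
    exact tendsto_const_nhds
  · intro w hw hgw
    exact hcon ⟨w, hw, hgw⟩

theorem main_res {g : ℂ[X]} (hg : 2 ≤ g.natDegree) (hyp : Hyp g) {f : ℂ[X]}
    (hf : 1 ≤ f.natDegree) :
    ∀ᶠ s : ℂ in residual ℂ, ∀ᶠ n : ℕ in atTop, Hyp (f.comp (g.comp^[n] X) + C s) := by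
  obtain ⟨ho, hd⟩ := good_dense hg hyp
  have h1 : ∀ᶠ s : ℂ in residual ℂ, ∀ m ∈ Mk f g, Good (ev g) (m + s) := by
    rw [eventually_countable_ball (mk_countable hg hf)]
    intro m _
    have h2 : IsOpen ((fun s : ℂ => m + s) ⁻¹' {z | Good (ev g) z}) :=
      ho.preimage (continuous_const.add continuous_id)
    have h3 : Dense ((fun s : ℂ => m + s) ⁻¹' {z | Good (ev g) z}) :=
      hd.preimage (Homeomorph.addLeft m).isOpenMap
    exact residual_of_dense_open h2 h3
  filter_upwards [h1] with s hs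
  have hf' : 1 ≤ (f + C s).natDegree := by rwa [natDegree_add_C]
  have h2 := main hg hyp hf' fun m hm => by
    have := hs _ (mk_add_C f g s hm)
    rwa [sub_add_cancel] at this
  filter_upwards [h2] with n hn
  rwa [add_comp, C_comp] at hn

end Pool.Agent.H400R3.HI
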