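import Mathlib
import Pool.Agent.H762R2.RtC
import Pool.Agent.H400R3.HI.Main

/-! The rational maps `(P / Q) ∘ g^n` on the sphere: attractor lemma and local lemmas. -/

set_option autoImplicit false

open Topology Filter Metric Set
open scoped OnePoint

namespace Pool.Agent.H400R3.HI

open Pool.Agent.H713R5.QJ Pool.Agent.H762R2.Rt

theorem schwarz' {H : ℂ → ℂ} {b : ℂ} {r : ℝ} (hr : 0 < r) (hH : DifferentiableOn ℂ H (ball b r))
    (hm : MapsTo H (ball b r) (ball b (r / 8))) {u v : ℂ} (hu : u ∈ closedBall b (r / 8))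
    (hv : v ∈ closedBall b (r / 8)) : dist (H u) (H v) ≤ 2 / 7 * dist u v := by
  rw [mem_closedBall] at hu hv
  have hsub : ball v (7 * r / 8) ⊆ ball b r := by
    intro z hz
    rw [mem_ball] at hz ⊢
    calc dist z b ≤ dist z v + dist v b := dist_triangle _ _ _
      _ < 7 * r / 8 + r / 8 := by linarith
      _ = r := by ring
  have h1 : MapsTo H (ball v (7 * r / 8)) (ball (H v) (r / 4)) := by
    intro z hz
    rw [mem_ball]
    have hv' : v ∈ ball b r := by rw [mem_ball]; linarith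
    have e1 := hm (hsub hz)
    have e2 := hm hv'
    rw [mem_ball] at e1 e2
    calc dist (H z) (H v) ≤ dist (H z) b + dist b (H v) := dist_triangle _ _ _
      _ < r / 8 + r / 8 := by rw [dist_comm b]; linarith
      _ = r / 4 := by ring
  have h2 : u ∈ ball v (7 * r / 8) := by
    rw [mem_ball]
    calc dist u v ≤ dist u b + dist b v := dist_triangle _ _ _
      _ ≤ r / 8 + r / 8 := by rw [dist_comm b]; linarith
      _ < 7 * r / 8 := by linarith
  have h3 := Complex.dist_le_div_mul_dist_of_mapsTo_ball (hH.mono hsub)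
    (h1.mono_right ball_subset_closedBall) h2
  have h4 : r / 4 / (7 * r / 8) = 2 / 7 := by field_simp; norm_num
  rwa [h4] at h3

theorem coe_nhds {x : ℂ} {U : Set ℂ} (hU : U ∈ 𝓝 x) :
    (fun z : ℂ => (z : OnePoint ℂ)) '' U ∈ 𝓝 (x : OnePoint ℂ) :=
  OnePoint.isOpenEmbedding_coe.image_mem_nhds.mpr hU

theorem tendsto_coe {ι : Type*} {l : Filter ι} {u : ι → ℂ} {x : ℂ} (h : Tendsto u l (𝓝 x)) :
    Tendsto (fun i => (u i : OnePoint ℂ)) l (𝓝 (x : OnePoint ℂ)) :=
  (OnePoint.continuous_coe.tendsto x).comp h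

/-- attractor lemma on the sphere -/
theorem attractor' {Φ : ℂ → ℂ} {F : OnePoint ℂ → OnePoint ℂ} {B : Set ℂ} (hB : B.Finite) {r : ℝ}
    (hr : 0 < r) (hdiff : ∀ b ∈ B, DifferentiableOn ℂ Φ (ball b r))
    (hF : ∀ b ∈ B, ∀ w ∈ ball b r, F (w : OnePoint ℂ) = (Φ w : OnePoint ℂ))
    (hmap : ∀ b ∈ B, ∃ b' ∈ B, MapsTo Φ (ball b r) (ball b' (r / 8)))
    {b₀ : ℂ} (hb₀ : b₀ ∈ B) {w : ℂ} (hw : w ∈ ball b₀ r) : Sinks F (w : OnePoint ℂ) := by
  classical
  choose! σ hσ1 hσ2 using hmap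
  have hσB : ∀ k : ℕ, ∀ b ∈ B, σ^[k] b ∈ B := by
    intro k
    induction k with
    | zero => intro b hb; exact hb
    | succ k ih => intro b hb; rw [Function.iterate_succ_apply']; exact hσ1 _ (ih b hb)
  have hit : ∀ k : ℕ, ∀ b ∈ B, MapsTo Φ^[k] (ball b r) (ball (σ^[k] b) r) ∧
      DifferentiableOn ℂ Φ^[k] (ball b r) ∧
      ∀ z ∈ ball b r, F^[k] (z : OnePoint ℂ) = (Φ^[k] z : OnePoint ℂ) := by
    intro k
    induction k with
    | zero =>
      intro b hb
      exact ⟨fun z hz => hz, differentiableOn_id, fun z _ => rfl⟩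
    | succ k ih =>
      intro b hb
      obtain ⟨h1, h2, h3⟩ := ih b hb
      refine ⟨?_, ?_, ?_⟩
      · intro z hz
        rw [Function.iterate_succ_apply' Φ, Function.iterate_succ_apply' σ]
        exact ball_subset_ball (by linarith) (hσ2 _ (hσB k b hb) (h1 hz))
      · rw [Function.iterate_succ']
        exact (hdiff _ (hσB k b hb)).comp h2 h1
      · intro z hz
        rw [Function.iterate_succ_apply' F, Function.iterate_succ_apply' Φ, h3 z hz]
        exact hF _ (hσB k b hb) _ (h1 hz)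
  have hit' : ∀ k : ℕ, ∀ b ∈ B, MapsTo Φ^[k + 1] (ball b r) (ball (σ^[k + 1] b) (r / 8)) := by
    intro k b hb z hz
    rw [Function.iterate_succ_apply' Φ, Function.iterate_succ_apply' σ]
    exact hσ2 _ (hσB k b hb) ((hit k b hb).1 hz)
  -- a repetition
  obtain ⟨i, q, hq, hrep⟩ : ∃ i q : ℕ, 0 < q ∧ σ^[i + q] b₀ = σ^[i] b₀ := by
    obtain ⟨i, -, j, -, hij, h⟩ := Set.infinite_univ.exists_lt_map_eq_of_mapsTo
      (f := fun k : ℕ => σ^[k] b₀) (t := B) (fun k _ => hσB k b₀ hb₀) hB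
    exact ⟨i, j - i, by omega, by rw [show i + (j - i) = j by omega]; exact h.symm⟩
  obtain ⟨i', hrep'⟩ : ∃ i' : ℕ, σ^[q * i' + q] b₀ = σ^[q * i'] b₀ := by
    refine ⟨i, ?_⟩
    have h1 : i ≤ q * i := Nat.le_mul_of_pos_left i hq
    have h2 : σ^[q * i + q] b₀ = σ^[q * i - i] (σ^[i + q] b₀) := by
      rw [← Function.iterate_add_apply, show q * i - i + (i + q) = q * i + q by omega]
    have h3 : σ^[q * i] b₀ = σ^[q * i - i] (σ^[i] b₀) := by
      rw [← Function.iterate_add_apply, show q * i - i + i = q * i by omega]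
    rw [h2, h3, hrep]
  set b : ℂ := σ^[q * i'] b₀ with hb
  have hbB : b ∈ B := hσB _ _ hb₀
  have hbq : σ^[q] b = b := by
    rw [hb, ← Function.iterate_add_apply, add_comm q, hrep']
  have hH : MapsTo Φ^[q] (ball b r) (ball b (r / 8)) := by
    have h1 := hit' (q - 1) b hbB
    rwa [show q - 1 + 1 = q by omega, hbq] at h1
  have hHd : DifferentiableOn ℂ Φ^[q] (ball b r) := (hit q b hbB).2.1
  have hsub : closedBall b (r / 8) ⊆ ball b r := closedBall_subset_ball (by linarith)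
  have hmaps : MapsTo Φ^[q] (closedBall b (r / 8)) (closedBall b (r / 8)) := fun z hz =>
    ball_subset_closedBall (hH (hsub hz))
  have hcontr : ContractingWith (Real.toNNReal (2 / 7))
      (hmaps.restrict Φ^[q] (closedBall b (r / 8)) (closedBall b (r / 8))) := by
    refine ⟨?_, LipschitzWith.of_dist_le_mul fun u v => ?_⟩
    · rw [← NNReal.coe_lt_coe, Real.coe_toNNReal _ (by norm_num)]
      norm_num
    · rw [Real.coe_toNNReal _ (by norm_num)]
      exact schwarz' hr hHd hH u.2 v.2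
  obtain ⟨y, hy, hfix, -, -⟩ := hcontr.exists_fixedPoint' isClosed_closedBall.isComplete hmaps
    (mem_closedBall_self (by positivity)) (edist_ne_top _ _)
  have hy' : y ∈ ball b r := hsub hy
  have hconv0 : ∀ u ∈ closedBall b (r / 8), ∀ k : ℕ, (Φ^[q])^[k] u ∈ closedBall b (r / 8) ∧
      dist ((Φ^[q])^[k] u) y ≤ (2 / 7) ^ k * dist u y := by
    intro u hu k
    induction k with
    | zero => exact ⟨hu, by simp⟩
    | succ k ih =>
      rw [Function.iterate_succ_apply']
      refine ⟨hmaps ih.1, ?_⟩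
      have h1 := schwarz' hr hHd hH ih.1 hy
      rw [hfix.eq] at h1
      calc _ ≤ 2 / 7 * dist ((Φ^[q])^[k] u) y := h1
        _ ≤ 2 / 7 * ((2 / 7) ^ k * dist u y) := by
          apply mul_le_mul_of_nonneg_left ih.2; norm_num
        _ = (2 / 7) ^ (k + 1) * dist u y := by ring
  have hconv : ∀ z ∈ ball b r, Tendsto (fun k : ℕ => Φ^[q * k] z) atTop (𝓝 y) := by
    intro z hz
    rw [← tendsto_add_atTop_iff_nat 1, tendsto_iff_dist_tendsto_zero]
    have h1 : Φ^[q] z ∈ closedBall b (r / 8) := ball_subset_closedBall (hH hz)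
    have h2 : Tendsto (fun k : ℕ => (2 / 7 : ℝ) ^ k * dist (Φ^[q] z) y) atTop (𝓝 0) := by
      have := (tendsto_pow_atTop_nhds_zero_of_lt_one (by norm_num : (0 : ℝ) ≤ 2 / 7)
        (by norm_num)).mul_const (dist (Φ^[q] z) y)
      rwa [zero_mul] at this
    refine squeeze_zero (fun _ => dist_nonneg) (fun k => ?_) h2
    have h3 := (hconv0 _ h1 k).2
    rwa [← Function.iterate_mul, ← Function.iterate_add_apply,
      show q * k + q = q * (k + 1) by ring] at h3
  refine ⟨(y : OnePoint ℂ), q, hq, ?_, ⟨_, coe_nhds (isOpen_ball.mem_nhds hy'), ?_⟩, ?_⟩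
  · rw [(hit q b hbB).2.2 y hy', hfix.eq]
  · rintro _ ⟨z, hz, rfl⟩
    refine (tendsto_coe (hconv z hz)).congr fun k => ?_
    exact ((hit (q * k) b hbB).2.2 z hz).symm
  · have h1 : Φ^[q * i'] w ∈ ball b r := (hit (q * i') b₀ hb₀).1 hw
    rw [← tendsto_add_atTop_iff_nat i']
    refine (tendsto_coe (hconv _ h1)).congr fun k => ?_
    rw [(hit (q * (k + i')) b₀ hb₀).2.2 w hw, mul_add, Function.iterate_add_apply Φ]

theorem sinks_of_map {F : OnePoint ℂ → OnePoint ℂ} (hF : Continuous F) {c : OnePoint ℂ}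
    (h : Sinks F (F c)) : Sinks F c := by
  obtain ⟨z, n, hn, hz, ⟨U, hU, hU'⟩, hc⟩ := h
  have hcomm : ∀ (k : ℕ) (x : OnePoint ℂ), F^[n * (k + 1)] x = F^[n - 1] (F^[n * k] (F x)) := by
    intro k x
    rw [← Function.iterate_succ_apply, ← Function.iterate_add_apply]
    congr 1
    rw [mul_add]
    omega
  have hFz : F (F^[n - 1] z) = z := by
    rw [← Function.iterate_succ_apply' F, Nat.succ_eq_add_one, show n - 1 + 1 = n by omega, hz]
  refine ⟨F^[n - 1] z, n, hn, ?_, ⟨F ⁻¹' U, ?_, ?_⟩, ?_⟩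
  · rw [← Function.iterate_add_apply, add_comm, Function.iterate_add_apply, hz]
  · exact hF.continuousAt.preimage_mem_nhds (by rw [hFz]; exact hU)
  · intro w hw
    rw [← tendsto_add_atTop_iff_nat 1]
    refine (((hF.iterate (n - 1)).tendsto z).comp (hU' (F w) hw)).congr fun k => ?_
    exact (hcomm k w).symm
  · rw [← tendsto_add_atTop_iff_nat 1]
    refine (((hF.iterate (n - 1)).tendsto z).comp hc).congr fun k => ?_
    exact (hcomm k c).symm

end Pool.Agent.H400R3.HI
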