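import Mathlib
import Pool.Agent.H762R2.RtD
import Pool.Agent.H400R3.HI.Rat

/-! The rational maps `(P / Q) ∘ g^n` on the sphere: the main theorems. -/

set_option autoImplicit false

open Topology Filter Metric Set MeasureTheory
open scoped OnePoint

namespace Pool.Agent.H400R3.HI

open Pool.Agent.H713R5.QJ Pool.Agent.H762R2.Rt Pool.Agent.Helper114.Herman
  Pool.Agent.Helper114.Konig

/-- the function `P / Q` -/
noncomputable def quo (P Q : Polynomial ℂ) (z : ℂ) : ℂ := P.eval z / Q.eval z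

/-- the value of `P / Q` at infinity, for `deg P ≤ deg Q` -/
noncomputable def vinf (P Q : Polynomial ℂ) : ℂ := P.coeff Q.natDegree / Q.leadingCoeff

theorem rat_infty {f : OnePoint ℂ → OnePoint ℂ} {P Q : Polynomial ℂ} (hf : IsRat f P Q)
    (hPQ : P.natDegree ≤ Q.natDegree) (hQ : 0 < Q.natDegree) :
    f ∞ = (vinf P Q : OnePoint ℂ) := by
  have hd : Q.natDegree = max P.natDegree Q.natDegree := (max_eq_right hPQ).symm
  have h := rat_formula hf hd hQ (u := 1) (v := 0) (Or.inl one_ne_zero)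
  rw [pr_zero, hom_zero, hom_zero, one_pow, mul_one, mul_one] at h
  rw [h, Polynomial.coeff_natDegree, pr_ne (by
    rw [Ne, Polynomial.leadingCoeff_eq_zero]; rintro rfl; simp at hQ)]
  rfl

theorem rat_pole {f : OnePoint ℂ → OnePoint ℂ} {P Q : Polynomial ℂ} (hf : IsRat f P Q)
    (hPQ : P.natDegree ≤ Q.natDegree) (hQ : 0 < Q.natDegree) {z : ℂ} (hz : Q.eval z = 0) :
    f (z : OnePoint ℂ) = ∞ := by
  have hd : Q.natDegree = max P.natDegree Q.natDegree := (max_eq_right hPQ).symm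
  have h := rat_formula hf hd hQ (u := z) (v := 1) (Or.inr one_ne_zero)
  rw [pr_one, hom_ne le_rfl one_ne_zero (P := Q)] at h
  rw [h]
  simp [hz, pr_zero]

/-- behaviour at infinity -/
theorem near_infty {f : OnePoint ℂ → OnePoint ℂ} {P Q : Polynomial ℂ} (hf : IsRat f P Q)
    (hPQ : P.natDegree ≤ Q.natDegree) (hQ : 0 < Q.natDegree) {s : ℝ} (hs : 0 < s) :
    ∃ S : ℝ, ∀ w : ℂ, S ≤ ‖w‖ → Q.eval w ≠ 0 ∧ quo P Q w ∈ ball (vinf P Q) s := by
  have h1 : (fun z : ℂ => (z : OnePoint ℂ)) '' ball (vinf P Q) s ∈ 𝓝 (f ∞) := by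
    rw [rat_infty hf hPQ hQ]
    exact coe_nhds (isOpen_ball.mem_nhds (mem_ball_self hs))
  have h2 : Tendsto (fun z : ℂ => f (z : OnePoint ℂ)) (Bornology.cobounded ℂ) (𝓝 (f ∞)) := by
    rw [Metric.cobounded_eq_cocompact, ← Filter.coclosedCompact_eq_cocompact]
    exact (hf.cont.tendsto ∞).comp OnePoint.tendsto_coe_infty
  obtain ⟨S, -, hS⟩ := (Filter.hasBasis_cobounded_norm.eventually_iff).mp (h2.eventually h1)
  refine ⟨S, fun w hw => ?_⟩
  obtain ⟨z, hz, hz'⟩ := hS hw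
  have hQw : Q.eval w ≠ 0 := by
    intro h0
    rw [rat_pole hf hPQ hQ h0] at hz'
    exact OnePoint.coe_ne_infty z hz'
  refine ⟨hQw, ?_⟩
  rw [hf.eval w hQw] at hz'
  have : z = quo P Q w := OnePoint.coe_injective hz'
  rwa [← this]

theorem near_point {P Q : Polynomial ℂ} {a : ℂ} (ha : Q.eval a ≠ 0) {s : ℝ} (hs : 0 < s) :
    ∀ᶠ δ : ℝ in 𝓝[>] 0, ∀ w ∈ ball a δ, Q.eval w ≠ 0 ∧ quo P Q w ∈ ball (quo P Q a) s := by
  have h1 : ContinuousAt (quo P Q) a := (P.continuous.continuousAt).div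
    (Q.continuous.continuousAt) ha
  have h2 : ∀ᶠ w in 𝓝 a, Q.eval w ≠ 0 := Q.continuous.continuousAt.eventually_ne ha
  have h3 := h2.and (h1.eventually (isOpen_ball.mem_nhds (mem_ball_self hs)))
  obtain ⟨δ, hδ, hδ'⟩ := Metric.mem_nhds_iff.mp h3
  filter_upwards [Ioo_mem_nhdsGT hδ] with δ' hδ'' w hw
  exact hδ' (ball_subset_ball hδ''.2.le hw)

section
variable {P Q g : Polynomial ℂ} {f0 : OnePoint ℂ → OnePoint ℂ} (hf0 : IsRat f0 P Q)
  (hPQ : P.natDegree ≤ Q.natDegree) (hQ : 0 < Q.natDegree) {R : ℝ} (hR : 0 < R)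
  (hGR : ∀ w, R ≤ ‖w‖ → 2 * ‖w‖ ≤ ‖ev g w‖)
  {A : Set ℂ} (hA : A.Finite) {p : ℕ} (hp : 0 < p) (hAG : ∀ a ∈ A, ev g a ∈ A)
  (hAP : ∀ a ∈ A, (ev g)^[p] a = a ∧ ‖deriv (ev g)^[p] a‖ < 1) (hAQ : ∀ a ∈ A, Q.eval a ≠ 0)

include hf0 hPQ hQ hR hGR hA hp hAG hAP hAQ in
theorem local_ev' {z : ℂ} (hz : Gd (ev g) A p z) : ∃ ρ > 0, ∀ s : ℝ, 0 < s → ∀ᶠ n : ℕ in atTop,
    (∀ w ∈ ball z ρ, Q.eval ((ev g)^[n] w) ≠ 0) ∧
      ∃ b' ∈ insert (vinf P Q) (quo P Q '' A),
        MapsTo (fun w => quo P Q ((ev g)^[n] w)) (ball z ρ) (ball b' s) := by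
  rcases hz with hz | ⟨a, ha, hz⟩
  · obtain ⟨ρ, hρ, h⟩ := unif_esc (ev_diff g) hR hGR hz
    refine ⟨ρ, hρ, fun s hs => ?_⟩
    obtain ⟨S, hS⟩ := near_infty hf0 hPQ hQ hs
    filter_upwards [h S] with n hn
    exact ⟨fun w hw => (hS _ (hn w hw).le).1, vinf P Q, mem_insert _ _,
      fun w hw => (hS _ (hn w hw).le).2⟩
  · obtain ⟨ρ, hρ, h⟩ := unif_att (ev_diff g) hp (hAP a ha).1 (hAP a ha).2 hz
    refine ⟨ρ, hρ, fun s hs => ?_⟩
    obtain ⟨δ, hδ1, hδ⟩ := (((Filter.eventually_all_finite hA).mpr fun a' ha' =>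
      near_point (P := P) (hAQ a' ha') hs).and self_mem_nhdsWithin).exists
    filter_upwards [h δ hδ] with n hn
    have hm := iter_mem (G := ev g) hAG ha n
    exact ⟨fun w hw => (hδ1 _ hm _ (hn w hw)).1, quo P Q ((ev g)^[n] a),
      mem_insert_of_mem _ (mem_image_of_mem _ hm), fun w hw => (hδ1 _ hm _ (hn w hw)).2⟩

variable {gh : OnePoint ℂ → OnePoint ℂ} (hgh : ∀ z : ℂ, gh (z : OnePoint ℂ) = (ev g z : OnePoint ℂ))

include hgh in
theorem gh_iter (n : ℕ) (z : ℂ) : gh^[n] (z : OnePoint ℂ) = ((ev g)^[n] z : OnePoint ℂ) := by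
  induction n with
  | zero => rfl
  | succ n ih => rw [Function.iterate_succ_apply', Function.iterate_succ_apply' (ev g), ih, hgh]

include hf0 hgh in
theorem F_val {n : ℕ} {z : ℂ} (hz : Q.eval ((ev g)^[n] z) ≠ 0) :
    (f0 ∘ gh^[n]) (z : OnePoint ℂ) = (quo P Q ((ev g)^[n] z) : OnePoint ℂ) := by
  rw [Function.comp_apply, gh_iter hgh, hf0.eval _ hz]
  rfl

theorem quo_iter_diff {n : ℕ} {z : ℂ} (hz : Q.eval ((ev g)^[n] z) ≠ 0) :
    DifferentiableAt ℂ (fun w => quo P Q ((ev g)^[n] w)) z := by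
  have h1 : DifferentiableAt ℂ (ev g)^[n] z := ((ev_diff g).iterate n) z
  exact (P.differentiable.differentiableAt.comp z h1).div
    (Q.differentiable.differentiableAt.comp z h1) hz

include hf0 hPQ hQ hR hGR hA hp hAG hAP hAQ hgh in
theorem discs_ev' (hgood : ∀ b ∈ insert (vinf P Q) (quo P Q '' A), Gd (ev g) A p b) :
    ∃ r > 0, ∀ᶠ n : ℕ in atTop, ∀ b ∈ insert (vinf P Q) (quo P Q '' A), ∀ w ∈ ball b r,
      Sinks (f0 ∘ gh^[n]) (w : OnePoint ℂ) := by
  have hB : (insert (vinf P Q) (quo P Q '' A)).Finite := (hA.image _).insert _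
  have h1 : ∀ b ∈ insert (vinf P Q) (quo P Q '' A), ∀ᶠ ρ : ℝ in 𝓝[>] 0, ∀ s : ℝ, 0 < s →
      ∀ᶠ n : ℕ in atTop, (∀ w ∈ ball b ρ, Q.eval ((ev g)^[n] w) ≠ 0) ∧
      ∃ b' ∈ insert (vinf P Q) (quo P Q '' A),
        MapsTo (fun w => quo P Q ((ev g)^[n] w)) (ball b ρ) (ball b' s) := by
    intro b hb
    obtain ⟨ρ, hρ, h⟩ := local_ev' hf0 hPQ hQ hR hGR hA hp hAG hAP hAQ (hgood b hb)
    filter_upwards [Ioo_mem_nhdsGT hρ] with ρ' hρ' s hs
    filter_upwards [h s hs] with n hn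
    obtain ⟨h2, b', hb', h3⟩ := hn
    exact ⟨fun w hw => h2 w (ball_subset_ball hρ'.2.le hw), b', hb',
      fun w hw => h3 (ball_subset_ball hρ'.2.le hw)⟩
  obtain ⟨r, hr1, hr⟩ := (((Filter.eventually_all_finite hB).mpr h1).and
    self_mem_nhdsWithin).exists
  have hr0 : 0 < r := hr
  refine ⟨r, hr0, ?_⟩
  have h2 : ∀ᶠ n : ℕ in atTop, ∀ b ∈ insert (vinf P Q) (quo P Q '' A),
      (∀ w ∈ ball b r, Q.eval ((ev g)^[n] w) ≠ 0) ∧
      ∃ b' ∈ insert (vinf P Q) (quo P Q '' A),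
        MapsTo (fun w => quo P Q ((ev g)^[n] w)) (ball b r) (ball b' (r / 8)) :=
    (Filter.eventually_all_finite hB).mpr fun b hb => hr1 b hb (r / 8) (by positivity)
  filter_upwards [h2] with n hn b hb w hw
  exact attractor' (Φ := fun w => quo P Q ((ev g)^[n] w)) hB hr0
    (fun b hb z hz => (quo_iter_diff ((hn b hb).1 z hz)).differentiableWithinAt)
    (fun b hb z hz => F_val hf0 hgh ((hn b hb).1 z hz)) (fun b hb => (hn b hb).2) hb hw

variable (hghc : Continuous gh)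

include hf0 hPQ hQ hR hGR hA hp hAG hAP hAQ hgh hghc in
theorem mark_ev' (hgood : ∀ b ∈ insert (vinf P Q) (quo P Q '' A), Gd (ev g) A p b) {m : ℂ}
    (hm : Gd (ev g) A p m) : ∀ᶠ n : ℕ in atTop, Sinks (f0 ∘ gh^[n]) (m : OnePoint ℂ) := by
  obtain ⟨r, hr, h1⟩ := discs_ev' hf0 hPQ hQ hR hGR hA hp hAG hAP hAQ hgh hgood
  obtain ⟨ρ, hρ, h2⟩ := local_ev' hf0 hPQ hQ hR hGR hA hp hAG hAP hAQ hm
  filter_upwards [h1, h2 r hr] with n hn1 hn2
  obtain ⟨h3, b', hb', h4⟩ := hn2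
  apply sinks_of_map (hf0.cont.comp (hghc.iterate n))
  rw [F_val hf0 hgh (h3 m (mem_ball_self hρ))]
  exact hn1 b' hb' _ (h4 (mem_ball_self hρ))

include hf0 hPQ hQ hR hGR hA hp hAG hAP hAQ hgh hghc in
theorem orbit_ev' (hgood : ∀ b ∈ insert (vinf P Q) (quo P Q '' A), Gd (ev g) A p b) {z : ℂ}
    (hz : Gd (ev g) A p z)
    (hz' : ∀ k : ℕ, 1 ≤ k → Q.eval ((ev g)^[k] z) ≠ 0 → Gd (ev g) A p (quo P Q ((ev g)^[k] z))) :
    ∀ᶠ n : ℕ in atTop, ∀ k : ℕ, 1 ≤ k → Q.eval ((ev g)^[k] z) ≠ 0 →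
      Sinks (f0 ∘ gh^[n]) (quo P Q ((ev g)^[k] z) : OnePoint ℂ) := by
  obtain ⟨r, hr, h1⟩ := discs_ev' hf0 hPQ hQ hR hGR hA hp hAG hAP hAQ hgh hgood
  obtain ⟨ρ, hρ, h2⟩ := local_ev' hf0 hPQ hQ hR hGR hA hp hAG hAP hAQ hz
  obtain ⟨k0, hk0⟩ := Filter.eventually_atTop.mp (h2 r hr)
  have h3 : ∀ᶠ n : ℕ in atTop, ∀ k ∈ Finset.range k0, 1 ≤ k → Q.eval ((ev g)^[k] z) ≠ 0 →
      Sinks (f0 ∘ gh^[n]) (quo P Q ((ev g)^[k] z) : OnePoint ℂ) := by
    rw [Filter.eventually_all_finset]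
    intro k _
    by_cases hk : 1 ≤ k ∧ Q.eval ((ev g)^[k] z) ≠ 0
    · filter_upwards [mark_ev' hf0 hPQ hQ hR hGR hA hp hAG hAP hAQ hgh hghc hgood
        (hz' k hk.1 hk.2)] with n hn _ _
      exact hn
    · exact Filter.Eventually.of_forall fun n h h' => absurd ⟨h, h'⟩ hk
  filter_upwards [h1, h3] with n hn1 hn3 k hk hk'
  by_cases hkk : k < k0
  · exact hn3 k (Finset.mem_range.mpr hkk) hk hk'
  · obtain ⟨-, b', hb', h⟩ := hk0 k (not_lt.mp hkk)
    exact hn1 b' hb' _ (h (mem_ball_self hρ))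

end

/-- hyperbolic rational map -/
def HypR (P Q : Polynomial ℂ) : Prop := Pool.Agent.H762R2.Rt.Hyp P Q

/-- the finite marked values of the pair `P / Q, g` -/
def MkR (P Q g : Polynomial ℂ) : Set ℂ :=
  {m | m = vinf P Q ∨ (∃ y, Q.eval y ≠ 0 ∧ (wro P Q).eval y = 0 ∧ m = quo P Q y) ∨
    (∃ (z : ℂ) (k : ℕ), (Polynomial.derivative g).eval z = 0 ∧ 1 ≤ k ∧
      Q.eval ((ev g)^[k] z) ≠ 0 ∧ m = quo P Q ((ev g)^[k] z)) ∨
    ∃ a ∈ sinks (ev g), m = quo P Q a}

theorem main' {g : Polynomial ℂ} (hg : 2 ≤ g.natDegree) (hyp : Hyp g) {P Q : Polynomial ℂ}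
    (hc : IsCoprime P Q) (hPQ : P.natDegree ≤ Q.natDegree) (hQ : 0 < Q.natDegree)
    (hsQ : ∀ a ∈ sinks (ev g), Q.eval a ≠ 0) (hM : ∀ m ∈ MkR P Q g, Good (ev g) m) :
    ∀ᶠ n : ℕ in atTop, HypR (P.comp (g.comp^[n] Polynomial.X)) (Q.comp (g.comp^[n] Polynomial.X)) := by
  have hQ0 : Q ≠ 0 := by rintro rfl; simp at hQ
  obtain ⟨f0, hf0, -⟩ := exists_isRat hc hQ0
  obtain ⟨gh, hgh0, -⟩ := exists_isRat (P := g) isCoprime_one_right one_ne_zero
  have hgh : ∀ z : ℂ, gh (z : OnePoint ℂ) = (ev g z : OnePoint ℂ) := by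
    intro z
    rw [hgh0.eval z (by simp)]
    simp [ev]
  have hghc := hgh0.cont
  have hghinf : gh ∞ = ∞ := by
    have hd : g.natDegree = max g.natDegree (1 : Polynomial ℂ).natDegree := by simp
    have h := rat_formula hgh0 hd (by omega) (u := 1) (v := 0) (Or.inl one_ne_zero)
    rw [pr_zero, hom_zero, hom_zero, one_pow, mul_one, mul_one] at h
    rw [h, Polynomial.coeff_one, if_neg (by omega), pr_zero]
  obtain ⟨R2, hR2⟩ := two_bound hg
  set R : ℝ := max 1 R2 with hR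
  have hR0 : 0 < R := lt_of_lt_of_le one_pos (le_max_left _ _)
  have hGR := hR2 R (le_max_right _ _)
  have hG := ev_diff g
  have hA := sinks_finite hg
  obtain ⟨p, hp, hAP⟩ := common_period hG hA
  have hAG : ∀ a ∈ sinks (ev g), ev g a ∈ sinks (ev g) := fun a ha => map_sinks hG ha
  have hgd : ∀ z, Good (ev g) z → Gd (ev g) (sinks (ev g)) p z := fun z hz =>
    (good_iff hG hp hAP z).mpr hz
  have hgood : ∀ b ∈ insert (vinf P Q) (quo P Q '' sinks (ev g)),
      Gd (ev g) (sinks (ev g)) p b := by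
    rintro b (rfl | ⟨a, ha, rfl⟩)
    · exact hgd _ (hM _ (Or.inl rfl))
    · exact hgd _ (hM _ (Or.inr (Or.inr (Or.inr ⟨a, ha, rfl⟩))))
  have hwfin : {y : ℂ | (wro P Q).eval y = 0}.Finite := by
    have h : wro P Q ≠ 0 := wro_ne_zero hc (by omega)
    refine (Finset.finite_toSet (wro P Q).roots.toFinset).subset fun z hz => ?_
    rw [Finset.mem_coe, Multiset.mem_toFinset, Polynomial.mem_roots h]
    exact hz
  have h1 : ∀ᶠ n : ℕ in atTop, ∀ y ∈ {y : ℂ | (wro P Q).eval y = 0}, Q.eval y ≠ 0 →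
      Sinks (f0 ∘ gh^[n]) (quo P Q y : OnePoint ℂ) := by
    refine (Filter.eventually_all_finite hwfin).mpr fun y hy => ?_
    by_cases hy' : Q.eval y ≠ 0
    · filter_upwards [mark_ev' hf0 hPQ hQ hR0 hGR hA hp hAG hAP hsQ hgh hghc hgood
        (hgd _ (hM _ (Or.inr (Or.inl ⟨y, hy', hy, rfl⟩))))] with n hn _
      exact hn
    · exact Filter.Eventually.of_forall fun n h => absurd h hy'
  have h2 : ∀ᶠ n : ℕ in atTop, ∀ z ∈ {z : ℂ | (Polynomial.derivative g).eval z = 0}, ∀ k : ℕ,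
      1 ≤ k → Q.eval ((ev g)^[k] z) ≠ 0 →
      Sinks (f0 ∘ gh^[n]) (quo P Q ((ev g)^[k] z) : OnePoint ℂ) :=
    (Filter.eventually_all_finite (crit_finite (by omega))).mpr fun z hz =>
      orbit_ev' hf0 hPQ hQ hR0 hGR hA hp hAG hAP hsQ hgh hghc hgood (hgd _ (hyp z hz))
        fun k hk hk' => hgd _ (hM _ (Or.inr (Or.inr (Or.inl ⟨z, k, hz, hk, hk', rfl⟩))))
  have h3 := mark_ev' hf0 hPQ hQ hR0 hGR hA hp hAG hAP hsQ hgh hghc hgood
    (hgood _ (mem_insert _ _))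
  filter_upwards [h1, h2, h3] with n hn1 hn2 hn3
  have hcont : Continuous (f0 ∘ gh^[n]) := hf0.cont.comp (hghc.iterate n)
  have hcop : IsCoprime (P.comp (g.comp^[n] Polynomial.X)) (Q.comp (g.comp^[n] Polynomial.X)) := by
    have := hc.map (Polynomial.compRingHom (g.comp^[n] Polynomial.X))
    simpa using this
  have hev : ∀ (T : Polynomial ℂ) (z : ℂ), (T.comp (g.comp^[n] Polynomial.X)).eval z =
      T.eval ((ev g)^[n] z) := fun T z => congrFun (ev_comp T g n) z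
  have hinf : Sinks (f0 ∘ gh^[n]) ∞ := by
    apply sinks_of_map hcont
    have : (f0 ∘ gh^[n]) ∞ = (vinf P Q : OnePoint ℂ) := by
      rw [Function.comp_apply, Function.iterate_fixed hghinf, rat_infty hf0 hPQ hQ]
    rw [this]
    exact hn3
  refine ⟨hcop, f0 ∘ gh^[n], hcont, ?_, ?_⟩
  · intro z hz
    rw [hev] at hz
    rw [F_val hf0 hgh hz, hev, hev]
    rfl
  · intro c hcrit
    induction c using OnePoint.rec with
    | infty => exact hinf
    | coe x =>
      by_cases hx : Q.eval ((ev g)^[n] x) = 0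
      · apply sinks_of_map hcont
        have : (f0 ∘ gh^[n]) (x : OnePoint ℂ) = ∞ := by
          rw [Function.comp_apply, gh_iter hgh, rat_pole hf0 hPQ hQ hx]
        rw [this]
        exact hinf
      · apply sinks_of_map hcont
        rw [F_val hf0 hgh hx]
        set y := (ev g)^[n] x with hy
        -- the derivative
        have hs1 : HasStrictDerivAt (ev g)^[n] (deriv (ev g)^[n] x) x := by
          have e0 : (ev g)^[n] =
              fun z => (Polynomial.X.comp (g.comp^[n] Polynomial.X) : Polynomial ℂ).eval z := by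
            have := ev_comp Polynomial.X g n
            funext z
            have h5 := congrFun this z
            simp only [ev, Function.comp_apply, Polynomial.eval_X] at h5
            exact h5.symm
          have h6 := (Polynomial.X.comp (g.comp^[n] Polynomial.X) : Polynomial ℂ).hasStrictDerivAt x
          rw [← e0] at h6
          rw [h6.hasDerivAt.deriv]
          exact h6
        have hs2 : HasStrictDerivAt (quo P Q) ((wro P Q).eval y / Q.eval y ^ 2) y := by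
          have := (P.hasStrictDerivAt y).div (Q.hasStrictDerivAt y) hx
          have e : (wro P Q).eval y = (Polynomial.derivative P).eval y * Q.eval y -
              P.eval y * (Polynomial.derivative Q).eval y := by
            simp [wro]
          rw [e]
          exact this
        have hs3 : HasStrictDerivAt (fun w => quo P Q ((ev g)^[n] w))
            ((wro P Q).eval y / Q.eval y ^ 2 * deriv (ev g)^[n] x) x := hs2.comp x hs1
        have hzero : (wro P Q).eval y / Q.eval y ^ 2 * deriv (ev g)^[n] x = 0 := by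
          by_contra hne
          obtain ⟨U, hU, hinj⟩ := injOn_of_deriv hs3 hne
          have hQn : ∀ᶠ w in 𝓝 x, Q.eval ((ev g)^[n] w) ≠ 0 :=
            ContinuousAt.eventually_ne (g := fun w => Q.eval ((ev g)^[n] w))
              ((Q.continuous.comp ((ev_diff g).iterate n).continuous).continuousAt) hx
          apply hcrit
          refine ⟨(fun z : ℂ => (z : OnePoint ℂ)) '' (U ∩ {w | Q.eval ((ev g)^[n] w) ≠ 0}),
            coe_nhds (inter_mem hU hQn), ?_⟩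
          rintro _ ⟨u, ⟨hu, hu'⟩, rfl⟩ _ ⟨v, ⟨hv, hv'⟩, rfl⟩ huv
          show (u : OnePoint ℂ) = (v : OnePoint ℂ)
          rw [F_val hf0 hgh hu', F_val hf0 hgh hv'] at huv
          rw [hinj hu hv (OnePoint.coe_injective huv)]
        rcases mul_eq_zero.mp hzero with h | h
        · have h4 : (wro P Q).eval y = 0 := by
            rcases div_eq_zero_iff.mp h with h5 | h5
            · exact h5
            · exact absurd (pow_eq_zero_iff (two_ne_zero) |>.mp h5) hx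
          exact hn1 y h4 hx
        · obtain ⟨j, hj, h3⟩ := exists_crit_iter hG n h
          have h4 : (Polynomial.derivative g).eval ((ev g)^[j] x) = 0 := by
            rw [← h3]; exact (Polynomial.deriv _).symm
          have e1 : (ev g)^[n - j] ((ev g)^[j] x) = y := by
            rw [← Function.iterate_add_apply, show n - j + j = n by omega]
          have h5 := hn2 _ h4 (n - j) (by omega) (by rw [e1]; exact hx)
          rwa [e1] at h5

end Pool.Agent.H400R3.HI
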