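import Mathlib
import Pool.Agent.H400R3.HI.Rat2

/-! The rational maps `M ∘ (P / Q) ∘ g^n` for almost every Möbius map `M` of a family. -/

set_option autoImplicit false

open Topology Filter Metric Set MeasureTheory
open scoped OnePoint

namespace Pool.Agent.H400R3.HI

open Pool.Agent.H713R5.QJ Pool.Agent.H762R2.Rt Pool.Agent.Helper114.Herman
  Pool.Agent.Helper114.Konig

theorem wro_add (P Q : Polynomial ℂ) (t : ℂ) :
    wro (P + Polynomial.C t * Q) Q = wro P Q := by
  simp only [wro, Polynomial.derivative_add, Polynomial.derivative_C_mul]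
  ring

theorem quo_add {P Q : Polynomial ℂ} {z : ℂ} (hz : Q.eval z ≠ 0) (t : ℂ) :
    quo (P + Polynomial.C t * Q) Q z = quo P Q z + t := by
  simp only [quo, Polynomial.eval_add, Polynomial.eval_mul, Polynomial.eval_C]
  field_simp

theorem vinf_add {P Q : Polynomial ℂ} (hQ : Q ≠ 0) (t : ℂ) :
    vinf (P + Polynomial.C t * Q) Q = vinf P Q + t := by
  have : Q.leadingCoeff ≠ 0 := Polynomial.leadingCoeff_ne_zero.mpr hQ
  simp only [vinf, Polynomial.coeff_add, Polynomial.coeff_C_mul, Polynomial.coeff_natDegree]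
  field_simp

theorem mkR_add {P Q g : Polynomial ℂ} (hQ : Q ≠ 0) (hsQ : ∀ a ∈ sinks (ev g), Q.eval a ≠ 0)
    (t : ℂ) {m : ℂ} (hm : m ∈ MkR (P + Polynomial.C t * Q) Q g) : m - t ∈ MkR P Q g := by
  rcases hm with rfl | ⟨y, hy, hy', rfl⟩ | ⟨z, k, hz, hk, hk', rfl⟩ | ⟨a, ha, rfl⟩
  · exact Or.inl (by rw [vinf_add hQ]; ring)
  · exact Or.inr (Or.inl ⟨y, hy, by rwa [wro_add] at hy', by rw [quo_add hy]; ring⟩)
  · exact Or.inr (Or.inr (Or.inl ⟨z, k, hz, hk, hk', by rw [quo_add hk']; ring⟩))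
  · exact Or.inr (Or.inr (Or.inr ⟨a, ha, by rw [quo_add (hsQ a ha)]; ring⟩))

theorem mkR_countable {g : Polynomial ℂ} (hg : 2 ≤ g.natDegree) {P Q : Polynomial ℂ}
    (hc : IsCoprime P Q) (hQ : 0 < Q.natDegree) : (MkR P Q g).Countable := by
  have hwfin : {y : ℂ | (wro P Q).eval y = 0}.Finite := by
    have h : wro P Q ≠ 0 := wro_ne_zero hc (by omega)
    refine (Finset.finite_toSet (wro P Q).roots.toFinset).subset fun z hz => ?_
    rw [Finset.mem_coe, Multiset.mem_toFinset, Polynomial.mem_roots h]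
    exact hz
  have e0 : ({vinf P Q} : Set ℂ).Countable := Set.countable_singleton _
  have e1 : (quo P Q '' {y : ℂ | (wro P Q).eval y = 0}).Countable := (hwfin.image _).countable
  have e2 : (⋃ k : ℕ, (fun z => quo P Q ((ev g)^[k] z)) ''
      {z : ℂ | (Polynomial.derivative g).eval z = 0}).Countable :=
    Set.countable_iUnion fun k => ((crit_finite (by omega)).image _).countable
  have e3 : (quo P Q '' sinks (ev g)).Countable := ((sinks_finite hg).image _).countable
  refine (e0.union (e1.union (e2.union e3))).mono ?_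
  rintro m (rfl | ⟨y, -, hy', rfl⟩ | ⟨z, k, hz, -, -, rfl⟩ | ⟨a, ha, rfl⟩)
  · exact Or.inl rfl
  · exact Or.inr (Or.inl ⟨y, hy', rfl⟩)
  · exact Or.inr (Or.inr (Or.inl (mem_iUnion.mpr ⟨k, z, hz, rfl⟩)))
  · exact Or.inr (Or.inr (Or.inr ⟨a, ha, rfl⟩))

theorem main_ae' {g : Polynomial ℂ} (hg : 2 ≤ g.natDegree) (hyp : Hyp g)
    (hvol : volume {z : ℂ | ¬ Good (ev g) z} = 0) {P Q : Polynomial ℂ}
    (hc : IsCoprime P Q) (hPQ : P.natDegree ≤ Q.natDegree) (hQ : 0 < Q.natDegree)
    (hsQ : ∀ a ∈ sinks (ev g), Q.eval a ≠ 0) :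
    ∀ᵐ t : ℂ, ∀ᶠ n : ℕ in atTop, HypR ((P + Polynomial.C t * Q).comp
      (g.comp^[n] Polynomial.X)) (Q.comp (g.comp^[n] Polynomial.X)) := by
  have hQ0 : Q ≠ 0 := by rintro rfl; simp at hQ
  have h1 : ∀ᵐ t : ℂ, ∀ m ∈ MkR P Q g, Good (ev g) (m + t) := by
    rw [ae_ball_iff (mkR_countable hg hc hQ)]
    intro m _
    rw [ae_iff]
    exact (measure_preimage_add volume m {z : ℂ | ¬ Good (ev g) z}).trans hvol
  filter_upwards [h1] with t ht
  refine main' hg hyp (hc.add_mul_right_left _) ?_ hQ hsQ fun m hm => ?_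
  · refine (Polynomial.natDegree_add_le _ _).trans (max_le hPQ ?_)
    exact (Polynomial.natDegree_C_mul_le _ _)
  · have := ht _ (mkR_add hQ0 hsQ t hm)
    rwa [sub_add_cancel] at this

theorem lin_cofinite {u v : ℂ} (h : u ≠ 0 ∨ v ≠ 0) : ∀ᶠ s : ℂ in cofinite, v + s * u ≠ 0 := by
  rw [Filter.eventually_cofinite]
  by_cases hu : u = 0
  · subst hu
    have hv : v ≠ 0 := by simpa using h
    have : {s : ℂ | ¬ v + s * 0 ≠ 0} = ∅ := by
      ext s; simp [hv]
    rw [this]; exact Set.finite_empty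
  · refine (Set.finite_singleton (-v / u)).subset fun s hs => ?_
    have hs' : v + s * u = 0 := not_not.mp hs
    rw [Set.mem_singleton_iff, eq_div_iff hu]
    linear_combination hs'

theorem main_mob {g : Polynomial ℂ} (hg : 2 ≤ g.natDegree) (hyp : Hyp g)
    (hvol : volume {z : ℂ | ¬ Good (ev g) z} = 0) {P Q : Polynomial ℂ}
    (hc : IsCoprime P Q) (hD : 1 ≤ max P.natDegree Q.natDegree) :
    ∀ᶠ s : ℂ in cofinite, ∀ᵐ t : ℂ, ∀ᶠ n : ℕ in atTop,
      HypR ((P + Polynomial.C t * (Q + Polynomial.C s * P)).comp (g.comp^[n] Polynomial.X))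
        ((Q + Polynomial.C s * P).comp (g.comp^[n] Polynomial.X)) := by
  set D := max P.natDegree Q.natDegree with hDdef
  have h1 : P.coeff D ≠ 0 ∨ Q.coeff D ≠ 0 := by
    by_contra hcon
    push Not at hcon
    rcases le_total P.natDegree Q.natDegree with h | h
    · rw [hDdef, max_eq_right h, Polynomial.coeff_natDegree, Polynomial.leadingCoeff_eq_zero] at hcon
      rw [hcon.2] at h
      rw [hDdef, hcon.2] at hD
      simp at h hD
      omega
    · rw [hDdef, max_eq_left h, Polynomial.coeff_natDegree, Polynomial.leadingCoeff_eq_zero] at hcon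
      rw [hcon.1] at h
      rw [hDdef, hcon.1] at hD
      simp at h hD
      omega
  have h2 : ∀ᶠ s : ℂ in cofinite, ∀ a ∈ sinks (ev g), Q.eval a + s * P.eval a ≠ 0 := by
    refine (Filter.eventually_all_finite (sinks_finite hg)).mpr fun a _ => lin_cofinite ?_
    by_contra hcon
    push Not at hcon
    obtain ⟨x, y, hxy⟩ := hc
    have := congrArg (Polynomial.eval a) hxy
    simp [hcon.1, hcon.2] at this
  filter_upwards [lin_cofinite h1, h2] with s hs1 hs2
  have hPle : P.natDegree ≤ D := le_max_left _ _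
  have hQle : Q.natDegree ≤ D := le_max_right _ _
  have hdeg : (Q + Polynomial.C s * P).natDegree = D := by
    apply Polynomial.natDegree_eq_of_le_of_coeff_ne_zero
    · exact (Polynomial.natDegree_add_le _ _).trans
        (max_le hQle ((Polynomial.natDegree_C_mul_le _ _).trans hPle))
    · simpa using hs1
  have hc' : IsCoprime P (Q + Polynomial.C s * P) := (hc.symm.add_mul_right_left _).symm
  exact main_ae' hg hyp hvol hc' (by rw [hdeg]; exact hPle) (by rw [hdeg]; omega)
    fun a ha => by simpa using hs2 a ha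

end Pool.Agent.H400R3.HI
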