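import Mathlib
import Pool.Agent.H400R3.HI.Rat3
import Pool.Agent.H400R3.HI.Open

/-! The rational maps `M ∘ (P / Q) ∘ g^n` for a generic Möbius map `M` of a family. -/

set_option autoImplicit false

open Topology Filter Metric Set
open scoped OnePoint

namespace Pool.Agent.H400R3.HI

open Pool.Agent.H713R5.QJ Pool.Agent.H762R2.Rt

theorem main_res' {g : Polynomial ℂ} (hg : 2 ≤ g.natDegree) (hyp : Hyp g)
    {P Q : Polynomial ℂ}
    (hc : IsCoprime P Q) (hPQ : P.natDegree ≤ Q.natDegree) (hQ : 0 < Q.natDegree)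
    (hsQ : ∀ a ∈ sinks (ev g), Q.eval a ≠ 0) :
    ∀ᶠ t : ℂ in residual ℂ, ∀ᶠ n : ℕ in atTop, HypR ((P + Polynomial.C t * Q).comp
      (g.comp^[n] Polynomial.X)) (Q.comp (g.comp^[n] Polynomial.X)) := by
  have hQ0 : Q ≠ 0 := by rintro rfl; simp at hQ
  obtain ⟨ho, hd⟩ := good_dense hg hyp
  have h1 : ∀ᶠ t : ℂ in residual ℂ, ∀ m ∈ MkR P Q g, Good (ev g) (m + t) := by
    rw [eventually_countable_ball (mkR_countable hg hc hQ)]
    intro m _
    have h2 : IsOpen ((fun s : ℂ => m + s) ⁻¹' {z | Good (ev g) z}) :=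
      ho.preimage (continuous_const.add continuous_id)
    have h3 : Dense ((fun s : ℂ => m + s) ⁻¹' {z | Good (ev g) z}) :=
      hd.preimage (Homeomorph.addLeft m).isOpenMap
    exact residual_of_dense_open h2 h3
  filter_upwards [h1] with t ht
  refine main' hg hyp (hc.add_mul_right_left _) ?_ hQ hsQ fun m hm => ?_
  · refine (Polynomial.natDegree_add_le _ _).trans (max_le hPQ ?_)
    exact (Polynomial.natDegree_C_mul_le _ _)
  · have := ht _ (mkR_add hQ0 hsQ t hm)
    rwa [sub_add_cancel] at this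

theorem main_mob_res {g : Polynomial ℂ} (hg : 2 ≤ g.natDegree) (hyp : Hyp g)
    {P Q : Polynomial ℂ}
    (hc : IsCoprime P Q) (hD : 1 ≤ max P.natDegree Q.natDegree) :
    ∀ᶠ s : ℂ in cofinite, ∀ᶠ t : ℂ in residual ℂ, ∀ᶠ n : ℕ in atTop,
      HypR ((P + Polynomial.C t * (Q + Polynomial.C s * P)).comp (g.comp^[n] Polynomial.X))
        ((Q + Polynomial.C s * P).comp (g.comp^[n] Polynomial.X)) := by
  set D := max P.natDegree Q.natDegree with hDdef
  have h1 : P.coeff D ≠ 0 ∨ Q.coeff D ≠ 0 := by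
    by_contra hcon
    push Not at hcon
    rcases le_total P.natDegree Q.natDegree with h | h
    · rw [hDdef, max_eq_right h, Polynomial.coeff_natDegree, Polynomial.leadingCoeff_eq_zero] at hcon
      rw [hcon.2] at h
      rw [hDdef, hcon.2] at hD
      simp at h hD
      omega
    · rw [hDdef, max_eq_left h, Polynomial.coeff_natDegree, Polynomial.leadingCoeff_eq_zero] at hcon
      rw [hcon.1] at h
      rw [hDdef, hcon.1] at hD
      simp at h hD
      omega
  have h2 : ∀ᶠ s : ℂ in cofinite, ∀ a ∈ sinks (ev g), Q.eval a + s * P.eval a ≠ 0 := by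
    refine (Filter.eventually_all_finite (sinks_finite hg)).mpr fun a _ => lin_cofinite ?_
    by_contra hcon
    push Not at hcon
    obtain ⟨x, y, hxy⟩ := hc
    have := congrArg (Polynomial.eval a) hxy
    simp [hcon.1, hcon.2] at this
  filter_upwards [lin_cofinite h1, h2] with s hs1 hs2
  have hPle : P.natDegree ≤ D := le_max_left _ _
  have hQle : Q.natDegree ≤ D := le_max_right _ _
  have hdeg : (Q + Polynomial.C s * P).natDegree = D := by
    apply Polynomial.natDegree_eq_of_le_of_coeff_ne_zero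
    · exact (Polynomial.natDegree_add_le _ _).trans
        (max_le hQle ((Polynomial.natDegree_C_mul_le _ _).trans hPle))
    · simpa using hs1
  have hc' : IsCoprime P (Q + Polynomial.C s * P) := (hc.symm.add_mul_right_left _).symm
  exact main_res' hg hyp hc' (by rw [hdeg]; exact hPle) (by rw [hdeg]; omega)
    fun a ha => by simpa using hs2 a ha

/-- density: Möbius maps close to the identity -/
theorem main_mob_dense {g : Polynomial ℂ} (hg : 2 ≤ g.natDegree) (hyp : Hyp g)
    {P Q : Polynomial ℂ}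
    (hc : IsCoprime P Q) (hD : 1 ≤ max P.natDegree Q.natDegree) {ε : ℝ} (hε : 0 < ε) :
    ∃ s t : ℂ, ‖s‖ < ε ∧ ‖t‖ < ε ∧ ∀ᶠ n : ℕ in atTop,
      HypR ((P + Polynomial.C t * (Q + Polynomial.C s * P)).comp (g.comp^[n] Polynomial.X))
        ((Q + Polynomial.C s * P).comp (g.comp^[n] Polynomial.X)) := by
  have h := main_mob_res hg hyp hc hD
  obtain ⟨s, hs, hs'⟩ : ∃ s ∈ ball (0 : ℂ) ε, ∀ᶠ t : ℂ in residual ℂ, ∀ᶠ n : ℕ in atTop,
      HypR ((P + Polynomial.C t * (Q + Polynomial.C s * P)).comp (g.comp^[n] Polynomial.X))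
        ((Q + Polynomial.C s * P).comp (g.comp^[n] Polynomial.X)) := by
    by_contra hcon
    rw [Filter.eventually_cofinite] at h
    have hinf : (ball (0 : ℂ) ε).Infinite := infinite_of_mem_nhds 0 (ball_mem_nhds _ hε)
    exact hinf (h.subset fun s hs hgood => hcon ⟨s, hs, hgood⟩)
  have hdense := dense_of_mem_residual hs'
  rw [Metric.dense_iff] at hdense
  obtain ⟨t, ht, ht'⟩ := hdense 0 ε hε
  exact ⟨s, t, by simpa using hs, by simpa using ht, ht'⟩

end Pool.Agent.H400R3.HI
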